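import Pool.Agent.helper16.GS.E
import Pool.Agent.helper6.EV.All
import Pool.Agent.helper36.QZ.HP

/-!
# MP_5a4a8e_nt, project gs: the theorem
-/

set_option autoImplicit false

namespace Pool.Agent.GS

open N1f72dd46 Filter MeasureTheory

/-- `K ≤ x ^ a` for large `x` -/
lemma F_large (K a : ℝ) (ha : 0 < a) : ∃ x0 : ℝ, 1 ≤ x0 ∧ ∀ x : ℝ, x0 ≤ x → K ≤ x ^ a := by
  have h := (tendsto_rpow_atTop ha).eventually_ge_atTop K
  obtain ⟨x0, hx0⟩ := eventually_atTop.1 h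
  exact ⟨max 1 x0, le_max_left _ _, fun x hx => hx0 x ((le_max_right _ _).trans hx)⟩

/-- the theorem in terms of `Hyp ω` -/
theorem MAINω (hS4 : S4_stmt) (ω : ℝ) (hω : 0 ≤ ω) (hω1 : ω < 1) (hH : Pool.Agent.QZ.Hyp ω) :
    ∃ c : ℝ, 0 < c ∧ ∀ ε : ℝ, 0 < ε → ∃ x0 : ℝ, 1 ≤ x0 ∧ ∀ x h : ℝ, x0 ≤ x → 0 ≤ h → h ≤ x →
      |Chebyshev.theta (x + h) - Chebyshev.theta x - h| ≤ x ^ ((1 + ω) / 2 + ε) + h * x ^ (-c) := by
  have hQ := Pool.Agent.EV.all_MAIN.1.1 (Pool.Agent.QZ.HP.1 ω hω1 hH)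
  obtain ⟨f, C, hf, hf1, hC, hth⟩ := Pool.Agent.EV.all_TH hQ
  have h1f : 0 < 1 - f := by linarith
  have hR : ∀ t : ℝ, 0 ≤ t → |R t| ≤ C * Real.exp (f * t) := by
    intro t ht
    have h1 := hth (Real.exp t) (Real.one_le_exp ht)
    unfold R V
    refine h1.trans (le_of_eq ?_)
    rw [← Real.exp_mul, mul_comm t f]
  refine ⟨(1 - f) / 8, by linarith, ?_⟩
  intro ε hε
  obtain ⟨K, T0, hK, hPL, hPR⟩ := PB (Pool.Agent.EV.I2 Pool.Agent.EV.I1) ω hω hH ε hε f C hf hf1 hC hR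
  obtain ⟨K', x1, hK', hx1, hmain⟩ := hS4 V f C (ω + ε) K T0 V_mono hf hf1 hC (by linarith) hK hR hPL hPR
  obtain ⟨x2, hx2, hx2'⟩ := F_large K' (ε / 2) (by linarith)
  obtain ⟨x3, hx3, hx3'⟩ := F_large K' ((1 - f) / 8) (by linarith)
  refine ⟨max x1 (max x2 x3), hx1.trans (le_max_left _ _), ?_⟩
  intro x h hx h0 hhx
  have hxx1 : x1 ≤ x := (le_max_left _ _).trans hx
  have hxx2 : x2 ≤ x := ((le_max_left _ _).trans (le_max_right _ _)).trans hx
  have hxx3 : x3 ≤ x := ((le_max_right _ _).trans (le_max_right _ _)).trans hx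
  have hxp : 0 < x := by linarith
  have h2 := hmain x h hxx1 h0 hhx
  unfold V at h2
  rw [Real.exp_log (by linarith), Real.exp_log hxp] at h2
  refine h2.trans ?_
  have h3 := hx2' x hxx2
  have h4 := hx3' x hxx3
  have h5 : K' * x ^ ((1 + (ω + ε)) / 2) ≤ x ^ ((1 + ω) / 2 + ε) := by
    have h6 : x ^ ((1 + ω) / 2 + ε) = x ^ (ε / 2) * x ^ ((1 + (ω + ε)) / 2) := by
      rw [← Real.rpow_add hxp]
      congr 1
      ring
    rw [h6]
    exact mul_le_mul_of_nonneg_right h3 (Real.rpow_nonneg hxp.le _)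
  have h7 : K' * (h * x ^ (-((1 - f) / 4))) ≤ h * x ^ (-((1 - f) / 8)) := by
    have h8 : x ^ (-((1 - f) / 8)) = x ^ ((1 - f) / 8) * x ^ (-((1 - f) / 4)) := by
      rw [← Real.rpow_add hxp]
      congr 1
      ring
    rw [h8]
    have h9 := mul_le_mul_of_nonneg_right h4 (mul_nonneg h0 (Real.rpow_nonneg hxp.le (-((1 - f) / 4))))
    calc K' * (h * x ^ (-((1 - f) / 4))) ≤ x ^ ((1 - f) / 8) * (h * x ^ (-((1 - f) / 4))) := h9
      _ = h * (x ^ ((1 - f) / 8) * x ^ (-((1 - f) / 4))) := by ring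
  rw [mul_add]
  linarith

/-- primes in short intervals -/
theorem GAP (hS4 : S4_stmt) (ω : ℝ) (hω : 0 ≤ ω) (hω1 : ω < 1) (hH : Pool.Agent.QZ.Hyp ω) (δ : ℝ) (hδ : 0 < δ) :
    ∃ x0 : ℝ, ∀ x : ℝ, x0 ≤ x → ∃ p : ℕ, p.Prime ∧ x < p ∧ (p : ℝ) ≤ x + x ^ ((1 + ω) / 2 + δ) := by
  obtain ⟨c, hc, hm⟩ := MAINω hS4 ω hω hω1 hH
  -- a smaller exponent, so that the length is at most x
  set d : ℝ := min δ ((1 - ω) / 2) with hd
  have hd0 : 0 < d := by
    rw [hd]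
    apply lt_min hδ
    linarith
  have hd1 : (1 + ω) / 2 + d ≤ 1 := by
    have := min_le_right δ ((1 - ω) / 2)
    rw [hd]
    linarith
  obtain ⟨x1, hx1, hm1⟩ := hm (d / 2) (by linarith)
  obtain ⟨x2, hx2, hx2'⟩ := F_large 4 (d / 2) (by linarith)
  obtain ⟨x3, hx3, hx3'⟩ := F_large 4 c hc
  refine ⟨max x1 (max x2 x3), ?_⟩
  intro x hx
  have hxx1 : x1 ≤ x := (le_max_left _ _).trans hx
  have hxx2 : x2 ≤ x := ((le_max_left _ _).trans (le_max_right _ _)).trans hx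
  have hxx3 : x3 ≤ x := ((le_max_right _ _).trans (le_max_right _ _)).trans hx
  have hx1' : 1 ≤ x := by linarith
  have hxp : 0 < x := by linarith
  set h : ℝ := x ^ ((1 + ω) / 2 + d) with hh
  have hh0 : 0 < h := Real.rpow_pos_of_pos hxp _
  have hhx : h ≤ x := by
    have := Real.rpow_le_rpow_of_exponent_le hx1' hd1
    rwa [Real.rpow_one] at this
  have h1 := hm1 x h hxx1 hh0.le hhx
  have h2 : x ^ ((1 + ω) / 2 + d / 2) ≤ h / 4 := by
    have h3 : h = x ^ (d / 2) * x ^ ((1 + ω) / 2 + d / 2) := by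
      rw [hh, ← Real.rpow_add hxp]
      congr 1
      ring
    have h4 := mul_le_mul_of_nonneg_right (hx2' x hxx2) (Real.rpow_nonneg hxp.le ((1 + ω) / 2 + d / 2))
    rw [← h3] at h4
    linarith
  have h3 : h * x ^ (-c) ≤ h / 4 := by
    have h4 : x ^ (-c) ≤ 1 / 4 := by
      rw [Real.rpow_neg hxp.le, one_div]
      exact inv_anti₀ (by norm_num) (hx3' x hxx3)
    have := mul_le_mul_of_nonneg_left h4 hh0.le
    linarith
  have h4 : 0 < Chebyshev.theta (x + h) - Chebyshev.theta x := by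
    have := (abs_le.1 h1).1
    linarith
  -- there is a prime
  by_contra hcon
  push Not at hcon
  have h5 : Chebyshev.theta (x + h) ≤ Chebyshev.theta x := by
    unfold Chebyshev.theta
    apply Finset.sum_le_sum_of_subset_of_nonneg
    · intro p hp
      simp only [Finset.mem_filter, Finset.mem_Ioc] at hp ⊢
      obtain ⟨⟨hp1, hp2⟩, hp3⟩ := hp
      have hp4 : (p : ℝ) ≤ x + h := (Nat.le_floor_iff (by linarith)).1 hp2
      refine ⟨⟨hp1, ?_⟩, hp3⟩
      rw [Nat.le_floor_iff hxp.le]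
      by_contra hp5
      push Not at hp5
      have hp6 := hcon p hp3 hp5
      have hp7 : h ≤ x ^ ((1 + ω) / 2 + δ) := by
        rw [hh]
        apply Real.rpow_le_rpow_of_exponent_le hx1'
        have := min_le_left δ ((1 - ω) / 2)
        linarith
      linarith
    · intro p hp _
      simp only [Finset.mem_filter, Finset.mem_Ioc] at hp
      exact Real.log_nonneg (by exact_mod_cast hp.1.1)
  linarith

end Pool.Agent.GS
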