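import Pool.Agent.helper16.GS.G

/-!
# MP_5a4a8e_nt, project gs: S4
-/

set_option autoImplicit false

namespace Pool.Agent.GS

open Filter MeasureTheory

/-- `K ≤ x ^ a` for large `x` -/
lemma G_large (K a : ℝ) (ha : 0 < a) : ∃ x0 : ℝ, 1 ≤ x0 ∧ ∀ x : ℝ, x0 ≤ x → K ≤ x ^ a := by
  have h := (tendsto_rpow_atTop ha).eventually_ge_atTop K
  obtain ⟨x0, hx0⟩ := eventually_atTop.1 h
  exact ⟨max 1 x0, le_max_left _ _, fun x hx => hx0 x ((le_max_right _ _).trans hx)⟩

lemma G_sq {D P Q A B K' : ℝ} (hP : 0 ≤ P) (hQ : 0 ≤ Q) (hA : 0 ≤ A) (hB : 0 ≤ B) (hK : 1 + A + B ≤ K')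
    (h : D ^ 2 ≤ A * P ^ 2 + B * Q ^ 2) : D ≤ K' * (P + Q) := by
  have hK0 : 1 ≤ K' := by linarith
  have h1 : D ^ 2 ≤ (K' * (P + Q)) ^ 2 := by
    have h2 : A ≤ K' ^ 2 := by nlinarith
    have h3 : B ≤ K' ^ 2 := by nlinarith
    have h4 : A * P ^ 2 ≤ K' ^ 2 * P ^ 2 := mul_le_mul_of_nonneg_right h2 (sq_nonneg P)
    have h5 : B * Q ^ 2 ≤ K' ^ 2 * Q ^ 2 := mul_le_mul_of_nonneg_right h3 (sq_nonneg Q)
    have h6 : 0 ≤ K' ^ 2 * (P * Q) := by positivity
    nlinarith
  exact (le_abs_self D).trans (abs_le_of_sq_le_sq h1 (by positivity))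

theorem S4 : S4_stmt := by
  intro V f C b K T0 hV hf hf1 hC hb hK hR hL hRr
  have h1f : 0 < 1 - f := by linarith
  obtain ⟨x1, hx1, hx1'⟩ := G_large (4 * K) ((1 - f) / 2) (by linarith)
  obtain ⟨x2, hx2, hx2'⟩ := G_large (3 * C / 2) ((1 - f) / 2) (by linarith)
  obtain ⟨x3, hx3, hx3'⟩ := G_large (3 * C) (1 - f) h1f
  set A : ℝ := 64 * K * 2 ^ b with hA
  set B : ℝ := 256 * K with hB
  have hA0 : 0 ≤ A := by positivity
  have hB0 : 0 ≤ B := by positivity
  refine ⟨1 + A + B + 12 * C, max (max x1 x2) (max x3 (Real.exp |T0|)), by positivity,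
    hx1.trans ((le_max_left _ _).trans (le_max_left _ _)), ?_⟩
  intro x h hx h0 hhx
  have hxx1 : x1 ≤ x := ((le_max_left _ _).trans (le_max_left _ _)).trans hx
  have hxx2 : x2 ≤ x := ((le_max_right _ _).trans (le_max_left _ _)).trans hx
  have hxx3 : x3 ≤ x := ((le_max_left _ _).trans (le_max_right _ _)).trans hx
  have hxx4 : Real.exp |T0| ≤ x := ((le_max_right _ _).trans (le_max_right _ _)).trans hx
  have hX1 := hx1' x hxx1
  have hX2 := hx2' x hxx2
  have hX3 := hx3' x hxx3
  have hx1 : 1 ≤ x := by linarith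
  have hxp : 0 < x := by linarith
  have hT0 : T0 ≤ Real.log x := by
    have : |T0| ≤ Real.log x := (Real.le_log_iff_exp_le hxp).2 hxx4
    exact (le_abs_self T0).trans this
  have hlog0 : 0 ≤ Real.log x := Real.log_nonneg hx1
  set t0 : ℝ := Real.log x with ht0
  set t1 : ℝ := Real.log (x + h) with ht1
  have he0 : Real.exp t0 = x := Real.exp_log hxp
  have he1 : Real.exp t1 = x + h := Real.exp_log (by linarith)
  have h01 : t0 ≤ t1 := Real.log_le_log hxp (by linarith)
  -- powers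
  have hxf : 0 < x ^ f := Real.rpow_pos_of_pos hxp f
  have hf0 : Real.exp (f * t0) = x ^ f := by
    rw [Real.rpow_def_of_pos hxp, mul_comm]
  have h2f : ∀ a : ℝ, 0 ≤ a → a ≤ 1 → ∀ T : ℝ, T ≤ t1 → Real.exp (a * T) ≤ 2 * x ^ a := by
    intro a ha0 ha1 T hT
    have e1 : Real.exp (a * T) ≤ Real.exp (a * t1) :=
      Real.exp_le_exp.2 (mul_le_mul_of_nonneg_left hT ha0)
    have e2 : Real.exp (a * t1) = (x + h) ^ a := by
      rw [Real.rpow_def_of_pos (by linarith), mul_comm]
    have e3 : (x + h) ^ a ≤ (2 * x) ^ a := Real.rpow_le_rpow (by linarith) (by linarith) ha0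
    have e4 : (2 * x) ^ a = 2 ^ a * x ^ a := Real.mul_rpow (by norm_num) hxp.le
    have e5 : (2 : ℝ) ^ a ≤ 2 := by
      have := Real.rpow_le_rpow_of_exponent_le (by norm_num : (1 : ℝ) ≤ 2) ha1
      rwa [Real.rpow_one] at this
    have e6 : (2 : ℝ) ^ a * x ^ a ≤ 2 * x ^ a := mul_le_mul_of_nonneg_right e5 (Real.rpow_nonneg hxp.le a)
    linarith
  have hbT : ∀ T : ℝ, T ≤ t1 → Real.exp (b * T) ≤ 2 ^ b * x ^ b := by
    intro T hT
    have e1 : Real.exp (b * T) ≤ Real.exp (b * t1) :=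
      Real.exp_le_exp.2 (mul_le_mul_of_nonneg_left hT hb)
    have e2 : Real.exp (b * t1) = (x + h) ^ b := by
      rw [Real.rpow_def_of_pos (by linarith), mul_comm]
    have e3 : (x + h) ^ b ≤ (2 * x) ^ b := Real.rpow_le_rpow (by linarith) (by linarith) hb
    have e4 : (2 * x) ^ b = 2 ^ b * x ^ b := Real.mul_rpow (by norm_num) hxp.le
    linarith
  -- crude bound for the difference
  have hcrude : |V t1 - V t0 - h| ≤ 3 * C * x ^ f := by
    have e1 := hR t1 (by linarith)
    have e0 := hR t0 hlog0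
    have e2 := h2f f (by linarith) hf1.le t1 le_rfl
    rw [hf0] at e0
    rw [he1] at e1
    rw [he0] at e0
    have e3 : V t1 - V t0 - h = (V t1 - (x + h)) - (V t0 - x) := by ring
    rw [e3]
    have e4 := abs_sub (V t1 - (x + h)) (V t0 - x)
    have e5 : C * Real.exp (f * t1) ≤ C * (2 * x ^ f) := mul_le_mul_of_nonneg_left e2 hC.le
    linarith
  have hxb0 : 0 ≤ x ^ ((1 + b) / 2) := Real.rpow_nonneg hxp.le _
  have hxq0 : 0 ≤ x ^ (-((1 - f) / 4)) := Real.rpow_nonneg hxp.le _
  rcases le_or_gt (x ^ ((1 + f) / 2) / 4) h with hbig | hsmall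
  · -- large h
    have e1 : x ^ f ≤ 4 * (h * x ^ (-((1 - f) / 4))) := by
      have e2 : x ^ ((1 + f) / 2) / 4 * x ^ (-((1 - f) / 4)) ≤ h * x ^ (-((1 - f) / 4)) :=
        mul_le_mul_of_nonneg_right hbig hxq0
      have e3 : x ^ f ≤ x ^ ((1 + f) / 2) * x ^ (-((1 - f) / 4)) := by
        rw [← Real.rpow_add hxp]
        apply Real.rpow_le_rpow_of_exponent_le hx1
        linarith
      linarith
    have e4 : 3 * C * x ^ f ≤ 12 * C * (h * x ^ (-((1 - f) / 4))) := by
      nlinarith
    refine hcrude.trans (e4.trans ?_)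
    have e5 : 0 ≤ h * x ^ (-((1 - f) / 4)) := mul_nonneg h0 hxq0
    have e6 : 0 ≤ (1 + A + B + 12 * C) * x ^ ((1 + b) / 2) := mul_nonneg (by positivity) hxb0
    have e7 : 12 * C * (h * x ^ (-((1 - f) / 4))) ≤ (1 + A + B + 12 * C) * (h * x ^ (-((1 - f) / 4))) :=
      mul_le_mul_of_nonneg_right (by linarith) e5
    rw [mul_add]
    linarith
  · -- small h
    have hg0 : 0 ≤ (1 + f) / 2 := by linarith
    have hg1 : (1 + f) / 2 ≤ 1 := by linarith
    set Xg : ℝ := x ^ ((1 + f) / 2) with hXg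
    have hXg0 : 0 < Xg := Real.rpow_pos_of_pos hxp _
    set Xb : ℝ := x ^ b with hXb
    have hXb0 : 0 < Xb := Real.rpow_pos_of_pos hxp _
    -- the range of v
    have hvr : ∀ T : ℝ, T ≤ t1 → Xg / x / 2 ≤ Real.exp (-((1 - f) / 2) * T) := by
      intro T hT
      have e1 := h2f ((1 - f) / 2) (by linarith) (by linarith) T hT
      have e2 : Real.exp (-((1 - f) / 2) * T) = (Real.exp ((1 - f) / 2 * T))⁻¹ := by
        rw [← Real.exp_neg]
        congr 1
        ring
      rw [e2]
      have e3 : Xg / x / 2 = (2 * x ^ ((1 - f) / 2))⁻¹ := by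
        have e4 : Xg * x ^ ((1 - f) / 2) = x := by
          rw [hXg, ← Real.rpow_add hxp]
          have : (1 + f) / 2 + (1 - f) / 2 = 1 := by ring
          rw [this, Real.rpow_one]
        have e5 : 0 < x ^ ((1 - f) / 2) := Real.rpow_pos_of_pos hxp _
        apply eq_inv_of_mul_eq_one_left
        field_simp
        linarith
      rw [e3]
      exact inv_anti₀ (Real.exp_pos _) e1
    have hhx' : h / x ≤ Xg / x / 4 := by
      rw [div_div, div_le_div_iff₀ hxp (by positivity)]
      nlinarith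
    have hXg2 : Xg ^ 2 ≤ x ^ 2 := by
      have : Xg ≤ x := by
        have e1 := Real.rpow_le_rpow_of_exponent_le hx1 hg1
        rwa [Real.rpow_one] at e1
      nlinarith
    -- the squares
    have hP2 : (x ^ ((1 + b) / 2)) ^ 2 = x * Xb := by
      rw [← Real.rpow_natCast, ← Real.rpow_mul hxp.le]
      have : (1 + b) / 2 * (2 : ℕ) = 1 + b := by push_cast; ring
      rw [this, Real.rpow_add hxp, Real.rpow_one]
    have hQ2 : (h * x ^ (-((1 - f) / 4))) ^ 2 = h ^ 2 * (Xg / x) := by
      rw [mul_pow, ← Real.rpow_natCast (x ^ (-((1 - f) / 4))), ← Real.rpow_mul hxp.le]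
      have e1 : -((1 - f) / 4) * (2 : ℕ) = (1 + f) / 2 - 1 := by push_cast; ring
      rw [e1, Real.rpow_sub hxp, Real.rpow_one]
    have hX1' : 4 * K * Xg ≤ x := by
      have e4 : x ^ ((1 - f) / 2) * Xg = x := by
        rw [hXg, ← Real.rpow_add hxp]
        have : (1 - f) / 2 + (1 + f) / 2 = 1 := by ring
        rw [this, Real.rpow_one]
      have := mul_le_mul_of_nonneg_right hX1 hXg0.le
      linarith
    rcases lt_trichotomy (V t1 - V t0 - h) 0 with hneg | hzero | hpos
    · -- decrease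
      set D : ℝ := -(V t1 - V t0 - h) with hDdef
      have hD0 : 0 < D := by rw [hDdef]; linarith
      have habs : |V t1 - V t0 - h| = D := abs_of_neg hneg
      have key := G_minus V hV x h D (K * (2 ^ b * Xb) + K * (h / x) ^ 2 * (2 * Xg)) hx1 h0 hhx hD0
        (by rw [hDdef]; ring) (by
          intro T v hT1 hT2 hv0 hv
          have e1 := hL T v (hT0.trans hT1) hv0 (by
            have := hvr T hT2
            have e3 : 0 < Xg / x := by positivity
            linarith)
          refine e1.trans ?_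
          have e2 : K * Real.exp (b * T) ≤ K * (2 ^ b * Xb) := mul_le_mul_of_nonneg_left (hbT T hT2) hK.le
          have e3 : v ^ 2 ≤ (h / x) ^ 2 := pow_le_pow_left₀ hv0.le hv 2
          have e4 : K * v ^ 2 * Real.exp ((1 + f) / 2 * T) ≤ K * (h / x) ^ 2 * (2 * Xg) := by
            apply mul_le_mul (mul_le_mul_of_nonneg_left e3 hK.le) (h2f _ hg0 hg1 T hT2) (Real.exp_pos _).le
            positivity
          linarith)
      rw [habs]
      have e1 : 16 * x * (K * (2 ^ b * Xb) + K * (h / x) ^ 2 * (2 * Xg)) ≤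
          A * (x ^ ((1 + b) / 2)) ^ 2 + B * (h * x ^ (-((1 - f) / 4))) ^ 2 := by
        rw [hP2, hQ2, hA, hB]
        have e2 : 16 * x * (K * (2 ^ b * Xb) + K * (h / x) ^ 2 * (2 * Xg)) =
            16 * K * 2 ^ b * (x * Xb) + 32 * K * (h ^ 2 * (Xg / x)) := by
          field_simp
          ring
        rw [e2]
        have e3 : 0 ≤ K * 2 ^ b * (x * Xb) := by positivity
        have e4 : 0 ≤ K * (h ^ 2 * (Xg / x)) := by positivity
        nlinarith
      exact G_sq hxb0 (mul_nonneg h0 hxq0) hA0 hB0 (by linarith) (key.trans e1)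
    · rw [hzero, abs_zero]
      have : 0 ≤ h * x ^ (-((1 - f) / 4)) := mul_nonneg h0 hxq0
      positivity
    · -- increase
      set D : ℝ := V t1 - V t0 - h with hDdef
      have habs : |D| = D := abs_of_pos hpos
      rw [habs] at hcrude
      have hDx : D ≤ x := by
        have e1 : x ^ (1 - f) * x ^ f = x := by
          rw [← Real.rpow_add hxp]
          have : 1 - f + f = 1 := by ring
          rw [this, Real.rpow_one]
        have := mul_le_mul_of_nonneg_right hX3 hxf.le
        linarith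
      have hDg : 3 * C * x ^ f ≤ 2 * Xg := by
        have e1 : x ^ ((1 - f) / 2) * x ^ f = Xg := by
          rw [hXg, ← Real.rpow_add hxp]
          congr 1
          ring
        have := mul_le_mul_of_nonneg_right hX2 hxf.le
        linarith
      have hD8 : D / (8 * x) ≤ Xg / x / 4 := by
        rw [div_div, div_le_div_iff₀ (by positivity) (by positivity)]
        nlinarith
      have key := G_plus V hV x h D (K * (2 ^ b * Xb) + K * (h / x + D / (8 * x)) ^ 2 * (2 * Xg)) hx1 h0 hhx hpos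
        hDx rfl (by
          intro T v hT1 hT2 hv0 hv
          have e1 := hRr T v (hT0.trans hT1) hv0 (by
            have := hvr T hT2
            linarith)
          refine e1.trans ?_
          have e2 : K * Real.exp (b * T) ≤ K * (2 ^ b * Xb) := mul_le_mul_of_nonneg_left (hbT T hT2) hK.le
          have e3 : v ^ 2 ≤ (h / x + D / (8 * x)) ^ 2 := pow_le_pow_left₀ hv0.le hv 2
          have e4 : K * v ^ 2 * Real.exp ((1 + f) / 2 * T) ≤ K * (h / x + D / (8 * x)) ^ 2 * (2 * Xg) := by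
            apply mul_le_mul (mul_le_mul_of_nonneg_left e3 hK.le) (h2f _ hg0 hg1 T hT2) (Real.exp_pos _).le
            positivity
          linarith)
      rw [habs]
      have e1 : D ^ 2 ≤ A * (x ^ ((1 + b) / 2)) ^ 2 + B * (h * x ^ (-((1 - f) / 4))) ^ 2 := by
        rw [hP2, hQ2, hA, hB]
        have e2 : (h / x + D / (8 * x)) ^ 2 ≤ 2 * (h / x) ^ 2 + 2 * (D / (8 * x)) ^ 2 := by
          nlinarith [sq_nonneg (h / x - D / (8 * x))]
        have e3 : K * (h / x + D / (8 * x)) ^ 2 * (2 * Xg) ≤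
            K * (2 * (h / x) ^ 2 + 2 * (D / (8 * x)) ^ 2) * (2 * Xg) := by
          apply mul_le_mul_of_nonneg_right _ (by positivity)
          exact mul_le_mul_of_nonneg_left e2 hK.le
        have e4 : D ^ 2 ≤ 32 * x * (K * (2 ^ b * Xb) + K * (2 * (h / x) ^ 2 + 2 * (D / (8 * x)) ^ 2) * (2 * Xg)) := by
          refine key.trans ?_
          apply mul_le_mul_of_nonneg_left _ (by positivity)
          linarith
        have e5 : 32 * x * (K * (2 ^ b * Xb) + K * (2 * (h / x) ^ 2 + 2 * (D / (8 * x)) ^ 2) * (2 * Xg)) =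
            32 * K * 2 ^ b * (x * Xb) + 128 * K * (h ^ 2 * (Xg / x)) + 2 * (K * Xg / x) * D ^ 2 := by
          field_simp
          ring
        rw [e5] at e4
        have e6 : K * Xg / x ≤ 1 / 4 := by
          rw [div_le_iff₀ hxp]
          linarith
        have e7 : 2 * (K * Xg / x) * D ^ 2 ≤ 1 / 2 * D ^ 2 := by
          apply mul_le_mul_of_nonneg_right _ (sq_nonneg D)
          linarith
        linarith
      exact G_sq hxb0 (mul_nonneg h0 hxq0) hA0 hB0 (by linarith) e1

end Pool.Agent.GS
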