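import Pool.Agent.helper68.QZ.Spec
import Pool.Agent.helper2.QZ.CM
import Pool.Agent.helper90.QZ.LB

/-!
# MP_5a4a8e_nt, project gs: the combinatorial inequality with a one-sided test function

`sw l u = u` for `0 < u ≤ l` and `0` otherwise. In the proof of the combinatorial inequality of project qz only
`φ u - φ v ≤ u - v` for `0 ≤ v ≤ u` is used, so the test function may drop.
-/

set_option autoImplicit false

namespace Pool.Agent.GS

open N1f72dd46 Filter MeasureTheory

/-- the sawtooth -/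
noncomputable def sw (l u : ℝ) : ℝ := if 0 < u ∧ u ≤ l then u else 0

lemma sw_nonneg (l u : ℝ) : 0 ≤ sw l u := by
  unfold sw
  split_ifs with h
  · exact h.1.le
  · exact le_rfl

lemma sw_le (l u : ℝ) (hl : l ≤ 1 / 4) : sw l u ≤ 1 / 4 := by
  unfold sw
  split_ifs with h
  · linarith [h.2]
  · norm_num

lemma sw_pos_lt {l u : ℝ} (h : 0 < sw l u) : 0 < u ∧ u ≤ l ∧ sw l u = u := by
  unfold sw at h ⊢
  split_ifs at h ⊢ with h1
  · exact ⟨h1.1, h1.2, rfl⟩
  · exact absurd h (lt_irrefl _)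

lemma sw_os {l u v : ℝ} (hv : 0 ≤ v) (hvu : v ≤ u) : sw l u ≤ sw l v + (u - v) := by
  unfold sw
  split_ifs with h1 h2 h2
  · linarith
  · have : ¬ (0 < v) := fun h => h2 ⟨h, hvu.trans h1.2⟩
    have : v = 0 := le_antisymm (not_lt.mp this) hv
    linarith
  · linarith
  · linarith

/-- the pointwise inequality: the element `p * q` -/
lemma pq {n p q : ℕ} {x l : ℝ} (hx : 0 < x) (hn : x ^ 2 = n)
    (hp : 0 < p) (hpq : p ≤ q) (hs : Real.log x - Real.log p ≤ 1 / 4) (hs0 : 0 ≤ Real.log x - Real.log p)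
    (hle : p * q ≤ n) : sw l (Real.log x - Real.log p) ≤ 2 * ((n : ℝ) - (p * q : ℕ)) / n +
      (if x < (q : ℝ) then sw l (Real.log q - Real.log x) else 0) := by
  have hq : 0 < q := lt_of_lt_of_le hp hpq
  have hpR : (0 : ℝ) < p := by exact_mod_cast hp
  have hqR : (0 : ℝ) < q := by exact_mod_cast hq
  have hnR : (0 : ℝ) < n := by rw [← hn]; positivity
  have hlogn : Real.log n = 2 * Real.log x := by
    rw [← hn, Real.log_pow]
    norm_num
  have hlogpq : Real.log p ≤ Real.log q := Real.log_le_log hpR (by exact_mod_cast hpq)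
  have hle' : Real.log p + Real.log q ≤ 2 * Real.log x := by
    rw [← Real.log_mul hpR.ne' hqR.ne', ← hlogn]
    exact Real.log_le_log (by positivity) (by exact_mod_cast hle)
  set w : ℝ := 2 * Real.log x - Real.log p - Real.log q with hw
  have hw0 : 0 ≤ w := by rw [hw]; linarith
  have hw1 : w ≤ 1 := by rw [hw]; linarith
  have hexp : ((p * q : ℕ) : ℝ) = n * Real.exp (-w) := by
    have h1 : Real.exp (-w) = p * q / n := by
      have h2 : -w = Real.log (p * q / n) := by
        rw [Real.log_div (by positivity) hnR.ne', Real.log_mul hpR.ne' hqR.ne', hlogn, hw]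
        ring
      rw [h2, Real.exp_log (by positivity)]
    rw [h1]
    push_cast
    field_simp
  have h1 : 2 * ((n : ℝ) - (p * q : ℕ)) / n = 2 * (1 - Real.exp (-w)) := by
    rw [hexp]
    field_simp
  have h2 : w ≤ 2 * (1 - Real.exp (-w)) := by
    have := Pool.Agent.QZ.CM_one hw0 hw1
    linarith
  rw [h1]
  split_ifs with h
  · have h5 : Real.log x ≤ Real.log q := Real.log_le_log hx h.le
    have h3 := sw_os (l := l) (u := Real.log x - Real.log p) (v := Real.log q - Real.log x)
      (by linarith) (by linarith)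
    have h4 : Real.log x - Real.log p - (Real.log q - Real.log x) = w := by rw [hw]; ring
    linarith
  · have h5 : Real.log q ≤ Real.log x := Real.log_le_log hqR (not_lt.mp h)
    have h3 : sw l (Real.log x - Real.log p) ≤ Real.log x - Real.log p := by
      unfold sw
      split_ifs
      · exact le_rfl
      · exact hs0
    linarith

/-- the combinatorial inequality for the sawtooth -/
theorem CM2 (hI2 : Pool.Agent.EV.I2_stmt) (n : ℕ) (x l : ℝ) (hx0 : 0 ≤ x) (hn : x ^ 2 = n)
    (hx3 : Real.exp 3 < x) (hl : l ≤ 1 / 4) :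
    ∑ p ∈ (Finset.Icc 1 ⌊x⌋₊).filter Nat.Prime, sw l (Real.log x - Real.log p) ≤
      ∑ p ∈ (Finset.Ioc ⌊x⌋₊ n).filter Nat.Prime, sw l (Real.log p - Real.log x) +
        2 * ((H n : ℝ) - G n + n + 1) / n := by
  have hx8 : 8 < x := by
    refine lt_trans ?_ hx3
    have h1 : (2 : ℝ) < Real.exp 1 := by
      have := Real.exp_one_gt_d9
      linarith
    have h2 : Real.exp 3 = Real.exp 1 ^ 3 := by
      rw [← Real.exp_nat_mul]
      norm_num
    rw [h2]
    calc (8 : ℝ) = 2 ^ 3 := by norm_num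
      _ < Real.exp 1 ^ 3 := pow_lt_pow_left₀ h1 (by norm_num) (by norm_num)
  have hx : 0 < x := by linarith
  have hnR : (0 : ℝ) < n := by rw [← hn]; positivity
  have hn0 : 0 < n := by exact_mod_cast hnR
  obtain ⟨a, ha1, ha2, ha3⟩ := hI2 n hn0
  have hr : Nat.sqrt n = ⌊x⌋₊ := by
    rw [← Real.nat_floor_real_sqrt_eq_nat_sqrt, ← hn, Real.sqrt_sq hx0]
  rw [hr] at ha3
  have hale : ∀ p, a p ≤ n := by
    intro p
    rcases ha1 p with h | h
    · rw [h]; exact Nat.zero_le n
    · exact h.2.2.1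
  set b : ℕ → ℝ := fun p => if (a p / p).Prime ∧ x < ((a p / p : ℕ) : ℝ) ∧ p * (a p / p) = a p then
    sw l (Real.log ((a p / p : ℕ) : ℝ) - Real.log x) else 0 with hb
  have hb0 : ∀ p, 0 ≤ b p := by
    intro p
    rw [hb]
    dsimp only
    split_ifs
    · exact sw_nonneg _ _
    · exact le_rfl
  have hterm0 : ∀ p, 0 ≤ 2 * ((n : ℝ) - (a p : ℕ)) / n := by
    intro p
    have : ((a p : ℕ) : ℝ) ≤ n := by exact_mod_cast hale p
    exact div_nonneg (mul_nonneg (by norm_num) (by linarith)) hnR.le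
  have key : ∀ p ∈ (Finset.Icc 1 ⌊x⌋₊).filter Nat.Prime,
      sw l (Real.log x - Real.log p) ≤ 2 * ((n : ℝ) - (a p : ℕ)) / n + b p := by
    intro p hp
    rw [Finset.mem_filter, Finset.mem_Icc] at hp
    obtain ⟨⟨hp1, hpr⟩, hpp⟩ := hp
    have hpR : (0 : ℝ) < p := by exact_mod_cast hpp.pos
    have hpx : (p : ℝ) ≤ x := (Nat.le_floor_iff hx0).mp hpr
    rcases le_or_gt (sw l (Real.log x - Real.log p)) 0 with h0 | h0
    · have := hterm0 p
      have := hb0 p
      linarith
    obtain ⟨hs0, hsl, -⟩ := sw_pos_lt h0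
    have hs4 : Real.log x - Real.log p ≤ 1 / 4 := by linarith
    rcases ha1 p with h | ⟨-, h1, h2, h3⟩
    · rw [h]
      have e1 : 2 * ((n : ℝ) - (0 : ℕ)) / n = 2 := by
        rw [Nat.cast_zero, sub_zero, mul_div_assoc, div_self hnR.ne', mul_one]
      rw [e1]
      have := sw_le l (Real.log x - Real.log p) hl
      have := hb0 p
      linarith
    have hpa : p ∣ a p := by
      have := Nat.minFac_dvd (a p)
      rwa [h3] at this
    obtain ⟨m, hm⟩ := hpa
    have hm0 : 0 < m := by
      rcases Nat.eq_zero_or_pos m with h | h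
      · rw [h, mul_zero] at hm
        omega
      · exact h
    have hdiv : a p / p = m := by
      rw [hm]
      exact Nat.mul_div_cancel_left m hpp.pos
    rcases Nat.lt_or_ge 1 m with hm1 | hm1
    · -- m > 1
      have hfac : p ≤ m.minFac := by
        rw [← h3]
        refine Nat.minFac_le_of_dvd ?_ ?_
        · exact (Nat.minFac_prime (by omega)).two_le
        · exact (Nat.minFac_dvd m).trans (by rw [hm]; exact Dvd.intro_left p rfl)
      have hmp : m.Prime := by
        by_contra hnp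
        have e1 : m.minFac ^ 2 ≤ m := Nat.minFac_sq_le_self hm0 hnp
        have e2 : p ^ 2 ≤ m := (Nat.pow_le_pow_left hfac 2).trans e1
        have e3 : p ^ 3 ≤ n := by
          calc p ^ 3 = p * p ^ 2 := by ring
            _ ≤ p * m := Nat.mul_le_mul_left p e2
            _ = a p := hm.symm
            _ ≤ n := h2
        have e4 : (p : ℝ) ^ 3 ≤ x ^ 2 := by
          rw [hn]
          exact_mod_cast e3
        have e5 : 3 * Real.log p ≤ 2 * Real.log x := by
          have := Real.log_le_log (by positivity) e4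
          rw [Real.log_pow, Real.log_pow] at this
          exact_mod_cast this
        have e6 : 3 < Real.log x := by
          rw [Real.lt_log_iff_exp_lt hx]
          exact hx3
        linarith
      have e1 := pq (l := l) hx hn hpp.pos (hfac.trans (Nat.minFac_le hm0)) hs4 hs0.le (by rw [← hm]; exact h2)
      rw [← hm] at e1
      refine e1.trans (le_of_eq ?_)
      congr 1
      rw [hb]
      dsimp only
      rw [hdiv]
      by_cases hxm : x < (m : ℝ)
      · rw [if_pos hxm, if_pos ⟨hmp, hxm, hm.symm⟩]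
      · rw [if_neg hxm, if_neg (fun h => hxm h.2.1)]
    · have hm2 : m = 1 := by omega
      rw [hm2, mul_one] at hm
      have e1 : 1 ≤ 2 * ((n : ℝ) - (a p : ℕ)) / n := by
        rw [hm, le_div_iff₀ hnR]
        have e2 : 2 * (p : ℝ) ≤ n := by
          rw [← hn]
          nlinarith
        nlinarith
      have := sw_le l (Real.log x - Real.log p) hl
      have := hb0 p
      linarith
  have hsum1 : ∑ p ∈ (Finset.Icc 1 ⌊x⌋₊).filter Nat.Prime, 2 * ((n : ℝ) - (a p : ℕ)) / n ≤
      2 * ((H n : ℝ) - G n + n + 1) / n := by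
    have e1 : ∑ p ∈ (Finset.Icc 1 ⌊x⌋₊).filter Nat.Prime, 2 * ((n : ℝ) - (a p : ℕ)) / n =
        2 * (∑ p ∈ (Finset.Icc 1 ⌊x⌋₊).filter Nat.Prime, ((n : ℝ) - (a p : ℕ))) / n := by
      rw [Finset.mul_sum, Finset.sum_div]
    rw [e1]
    have e2 : ∑ p ∈ (Finset.Icc 1 ⌊x⌋₊).filter Nat.Prime, ((n : ℝ) - (a p : ℕ)) ≤
        (H n : ℝ) - G n + n + 1 := by
      have := (Int.cast_le (R := ℝ)).mpr ha3
      push_cast at this
      exact this
    refine div_le_div_of_nonneg_right ?_ hnR.le
    exact mul_le_mul_of_nonneg_left e2 (by norm_num)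
  have hsum2 : ∑ p ∈ (Finset.Icc 1 ⌊x⌋₊).filter Nat.Prime, b p ≤
      ∑ p ∈ (Finset.Ioc ⌊x⌋₊ n).filter Nat.Prime, sw l (Real.log p - Real.log x) := by
    have e1 : ∑ p ∈ (Finset.Icc 1 ⌊x⌋₊).filter Nat.Prime, b p =
        ∑ p ∈ ((Finset.Icc 1 ⌊x⌋₊).filter Nat.Prime).filter (fun p => (a p / p).Prime ∧
          x < ((a p / p : ℕ) : ℝ) ∧ p * (a p / p) = a p),
          sw l (Real.log ((a p / p : ℕ) : ℝ) - Real.log x) := (Finset.sum_filter _ _).symm
    rw [e1]
    have hinj : Set.InjOn (fun p => a p / p) (((Finset.Icc 1 ⌊x⌋₊).filter Nat.Prime).filter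
        (fun p => (a p / p).Prime ∧ x < ((a p / p : ℕ) : ℝ) ∧ p * (a p / p) = a p) : Finset ℕ) := by
      intro p hp p' hp' heq
      rw [Finset.mem_coe, Finset.mem_filter] at hp hp'
      by_contra hne
      dsimp only at heq
      obtain ⟨-, h1, -, h3⟩ := hp
      obtain ⟨hq1, -, -, h3'⟩ := hp'
      rw [Finset.mem_filter] at hq1
      have hd1 : (a p / p) ∣ a p := Dvd.intro_left p h3
      have hd2 : (a p / p) ∣ a p' := by
        rw [heq]
        exact Dvd.intro_left p' h3'
      have hz1 : a p ≠ 0 := by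
        intro h
        rw [h, Nat.zero_div] at h1
        exact Nat.not_prime_zero h1
      have hz2 : a p' ≠ 0 := by
        intro h
        rw [h, Nat.zero_div] at heq
        rw [heq] at h1
        exact Nat.not_prime_zero h1
      have hc := ha2 p p' hne hz1 hz2
      have := Nat.dvd_gcd hd1 hd2
      rw [hc] at this
      exact h1.one_lt.ne' (Nat.dvd_one.mp this)
    have e2 := Finset.sum_image (s := ((Finset.Icc 1 ⌊x⌋₊).filter Nat.Prime).filter
        (fun p => (a p / p).Prime ∧ x < ((a p / p : ℕ) : ℝ) ∧ p * (a p / p) = a p))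
        (f := fun q : ℕ => sw l (Real.log (q : ℝ) - Real.log x)) (g := fun p => a p / p) hinj
    rw [← e2]
    refine Finset.sum_le_sum_of_subset_of_nonneg ?_ (fun q _ _ => sw_nonneg _ _)
    intro q hq
    rw [Finset.mem_image] at hq
    obtain ⟨p, hp, rfl⟩ := hq
    rw [Finset.mem_filter] at hp
    obtain ⟨-, h1, h2, h3⟩ := hp
    rw [Finset.mem_filter, Finset.mem_Ioc]
    refine ⟨⟨?_, (Nat.div_le_self _ _).trans (hale p)⟩, h1⟩
    exact (Nat.floor_lt hx0).mpr h2
  calc ∑ p ∈ (Finset.Icc 1 ⌊x⌋₊).filter Nat.Prime, sw l (Real.log x - Real.log p)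
      ≤ ∑ p ∈ (Finset.Icc 1 ⌊x⌋₊).filter Nat.Prime, (2 * ((n : ℝ) - (a p : ℕ)) / n + b p) :=
        Finset.sum_le_sum key
    _ = ∑ p ∈ (Finset.Icc 1 ⌊x⌋₊).filter Nat.Prime, 2 * ((n : ℝ) - (a p : ℕ)) / n +
        ∑ p ∈ (Finset.Icc 1 ⌊x⌋₊).filter Nat.Prime, b p := Finset.sum_add_distrib
    _ ≤ _ := by linarith

end Pool.Agent.GS
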