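import Pool.Agent.helper16.GS.A

/-!
# MP_5a4a8e_nt, project gs: the inequality for real centres, with logarithmic weights
-/

set_option autoImplicit false

namespace Pool.Agent.GS

open N1f72dd46 Filter MeasureTheory

/-- `∑_{y - l ≤ log p ≤ y + l} log p (y - log p)` (over the primes `p ≤ M`) -/
noncomputable def FF (M : ℕ) (y l : ℝ) : ℝ :=
  ∑ p ∈ (Finset.Icc 1 M).filter Nat.Prime,
    if y - l ≤ Real.log p ∧ Real.log p ≤ y + l then Real.log p * (y - Real.log p) else 0

lemma FF_large (hI2 : Pool.Agent.EV.I2_stmt) {y l : ℝ} (hl : l ≤ 1 / 4) (hl0 : 0 < l) (hy : 4 ≤ y) (n M : ℕ)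
    (hn : n = ⌊Real.exp (2 * y)⌋₊) (hM : Real.exp (y + 1) ≤ M) :
    FF M y l ≤ y * (2 * ((H n : ℝ) - G n + n + 1) / n + 6) := by
  -- elementary facts
  set E : ℝ := Real.exp y with hE
  have hE0 : 0 < E := Real.exp_pos y
  have hE2 : Real.exp (2 * y) = E ^ 2 := by rw [hE, ← Real.exp_nat_mul]; norm_num
  have hE5 : 5 ≤ E := by have := Real.add_one_le_exp y; linarith
  rw [hE2] at hn
  have hnle : (n : ℝ) ≤ E ^ 2 := by rw [hn]; exact Nat.floor_le (by positivity)
  have hnlt : E ^ 2 < n + 1 := by rw [hn]; exact Nat.lt_floor_add_one _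
  have hnpos : (0 : ℝ) < n := by nlinarith
  have hnhalf : E ^ 2 ≤ 2 * n := by nlinarith
  set x : ℝ := Real.sqrt n with hx
  have hx0 : 0 ≤ x := Real.sqrt_nonneg _
  have hx2 : x ^ 2 = n := Real.sq_sqrt hnpos.le
  have hxpos : 0 < x := Real.sqrt_pos.2 hnpos
  have hxE : x ≤ E := by nlinarith
  have hx3 : Real.exp 3 < x := by
    have h1 : Real.exp 8 ≤ E ^ 2 := by
      rw [← hE2]; exact Real.exp_le_exp.2 (by linarith)
    have h2 : Real.exp 8 = (Real.exp 3) ^ 2 * Real.exp 2 := by
      rw [← Real.exp_nat_mul, ← Real.exp_add]; norm_num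
    have h3 : 3 ≤ Real.exp 2 := by have := Real.add_one_le_exp (2 : ℝ); linarith
    have h4 : 4 ≤ Real.exp 3 := by have := Real.add_one_le_exp (3 : ℝ); linarith
    by_contra h5
    push Not at h5
    have h6 : x ^ 2 ≤ (Real.exp 3) ^ 2 := by nlinarith
    rw [hx2] at h6
    nlinarith
  -- the floors agree
  have hfl : ⌊x⌋₊ = ⌊E⌋₊ := by
    apply le_antisymm
    · exact Nat.floor_le_floor hxE
    · rw [Nat.le_floor_iff hx0]
      have h1 : (⌊E⌋₊ : ℝ) ≤ E := Nat.floor_le hE0.le
      have h2 : ((⌊E⌋₊ ^ 2 : ℕ) : ℝ) ≤ E ^ 2 := by push_cast; nlinarith [Nat.cast_nonneg (α := ℝ) ⌊E⌋₊]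
      have h3 : ⌊E⌋₊ ^ 2 ≤ n := by
        rw [hn]; exact Nat.le_floor h2
      have h4 : ((⌊E⌋₊ : ℝ)) ^ 2 ≤ x ^ 2 := by rw [hx2]; exact_mod_cast h3
      exact (pow_le_pow_iff_left₀ (Nat.cast_nonneg _) hx0 two_ne_zero).1 h4
  have hlogx : Real.log x ≤ y := by
    rw [Real.log_le_iff_le_exp hxpos]; exact hxE
  have hdel : y - Real.log x ≤ 1 / n := by
    have h1 : Real.log x = Real.log n / 2 := by
      rw [← hx2, Real.log_pow]; push_cast; ring
    have h2 : Real.log (E ^ 2 / n) = 2 * y - Real.log n := by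
      rw [Real.log_div (by positivity) hnpos.ne', ← hE2, Real.log_exp]
    have h3 : Real.log (E ^ 2 / n) ≤ E ^ 2 / n - 1 := Real.log_le_sub_one_of_pos (by positivity)
    have h4 : E ^ 2 / n - 1 ≤ 1 / n := by
      rw [div_sub_one hnpos.ne', div_le_div_iff_of_pos_right hnpos]
      linarith
    have h5 : 0 < 1 / (n : ℝ) := by positivity
    rw [h1]
    linarith
  set N : ℕ := ⌊E⌋₊ with hN
  have hNE : (N : ℝ) ≤ E := Nat.floor_le hE0.le
  have hNlt : E < N + 1 := Nat.lt_floor_add_one _
  have hEM : E ≤ M := le_trans (Real.exp_le_exp.2 (by linarith)) hM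
  have hNM : N ≤ M := by
    have : (N : ℝ) ≤ M := by linarith
    exact_mod_cast this
  have hCM' := CM2 hI2 n x l hx0 hx2 hx3 hl
  rw [hfl] at hCM'
  have hd0 : 0 ≤ y - Real.log x := by linarith
  have hEn : E * (1 / n) ≤ 1 := by
    rw [mul_one_div, div_le_one hnpos]
    nlinarith
  have hy0 : 0 ≤ y := by linarith
  have hn1 : 0 ≤ 1 / (n : ℝ) := by positivity
  -- the sum
  have hsum : FF M y l = ∑ p ∈ (Finset.Icc 1 N).filter Nat.Prime,
      (if y - l ≤ Real.log p ∧ Real.log p ≤ y + l then Real.log p * (y - Real.log p) else 0) +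
      ∑ p ∈ (Finset.Ioc N M).filter Nat.Prime,
      (if y - l ≤ Real.log p ∧ Real.log p ≤ y + l then Real.log p * (y - Real.log p) else 0) := by
    unfold FF
    have h1 : (Finset.Icc 1 M).filter Nat.Prime =
        (Finset.Icc 1 N).filter Nat.Prime ∪ (Finset.Ioc N M).filter Nat.Prime := by
      ext p
      simp only [Finset.mem_union, Finset.mem_filter, Finset.mem_Icc, Finset.mem_Ioc]
      constructor
      · rintro ⟨⟨h1, h2⟩, h3⟩
        rcases Nat.lt_or_ge N p with h | h
        · right; exact ⟨⟨h, h2⟩, h3⟩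
        · left; exact ⟨⟨h1, h⟩, h3⟩
      · rintro (⟨⟨h1, h2⟩, h3⟩ | ⟨⟨h1, h2⟩, h3⟩)
        · exact ⟨⟨h1, h2.trans hNM⟩, h3⟩
        · exact ⟨⟨by omega, h2⟩, h3⟩
    rw [h1, Finset.sum_union]
    rw [Finset.disjoint_left]
    intro p hp hp'
    simp only [Finset.mem_filter, Finset.mem_Icc, Finset.mem_Ioc] at hp hp'
    omega
  -- the first sum
  have hA : ∑ p ∈ (Finset.Icc 1 N).filter Nat.Prime,
      (if y - l ≤ Real.log p ∧ Real.log p ≤ y + l then Real.log p * (y - Real.log p) else 0) ≤
      y * (∑ p ∈ (Finset.Icc 1 N).filter Nat.Prime, sw l (Real.log x - Real.log p) + 1) := by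
    have h1 : ∀ p ∈ (Finset.Icc 1 N).filter Nat.Prime,
        (if y - l ≤ Real.log p ∧ Real.log p ≤ y + l then Real.log p * (y - Real.log p) else 0) ≤
        y * (sw l (Real.log x - Real.log p) + 1 / n) := by
      intro p hp
      simp only [Finset.mem_filter, Finset.mem_Icc] at hp
      have hp0 : (0 : ℝ) < p := by exact_mod_cast hp.2.pos
      have hpN : (p : ℝ) ≤ N := by exact_mod_cast hp.1.2
      have h1 : Real.log p ≤ y := by
        rw [Real.log_le_iff_le_exp hp0]
        linarith
      have h1' : Real.log p ≤ Real.log x := by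
        apply Real.log_le_log hp0
        have : (N : ℝ) ≤ x := by rw [← hfl]; exact Nat.floor_le hx0
        linarith
      have h2 := sw_nonneg l (Real.log x - Real.log p)
      split_ifs with h3
      · have h4 : y - Real.log p ≤ sw l (Real.log x - Real.log p) + 1 / n := by
          unfold sw
          split_ifs with h5
          · linarith
          · have h6 : ¬ (0 < Real.log x - Real.log p) := fun h => h5 ⟨h, by linarith [h3.1]⟩
            linarith
        have h5 : 0 ≤ y - Real.log p := by linarith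
        calc Real.log p * (y - Real.log p) ≤ y * (y - Real.log p) := mul_le_mul_of_nonneg_right h1 h5
          _ ≤ y * (sw l (Real.log x - Real.log p) + 1 / n) := mul_le_mul_of_nonneg_left h4 hy0
      · positivity
    refine (Finset.sum_le_sum h1).trans ?_
    rw [← Finset.mul_sum, Finset.sum_add_distrib, Finset.sum_const, nsmul_eq_mul]
    apply mul_le_mul_of_nonneg_left _ hy0
    have h2 : (((Finset.Icc 1 N).filter Nat.Prime).card : ℝ) ≤ E := by
      have h3 : ((Finset.Icc 1 N).filter Nat.Prime).card ≤ N := by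
        refine (Finset.card_filter_le _ _).trans ?_
        rw [Nat.card_Icc]; omega
      have h4 : (((Finset.Icc 1 N).filter Nat.Prime).card : ℝ) ≤ N := by exact_mod_cast h3
      linarith
    have h5 : (((Finset.Icc 1 N).filter Nat.Prime).card : ℝ) * (1 / n) ≤ 1 :=
      (mul_le_mul_of_nonneg_right h2 hn1).trans hEn
    linarith
  have hB : ∑ p ∈ (Finset.Ioc N M).filter Nat.Prime,
      (if y - l ≤ Real.log p ∧ Real.log p ≤ y + l then Real.log p * (y - Real.log p) else 0) ≤
      y * (-(∑ p ∈ (Finset.Ioc N n).filter Nat.Prime, sw l (Real.log p - Real.log x)) + 3) := by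
    have h1 : ∀ p ∈ (Finset.Ioc N M).filter Nat.Prime,
        (if y - l ≤ Real.log p ∧ Real.log p ≤ y + l then Real.log p * (y - Real.log p) else 0) ≤
        y * (-(sw l (Real.log p - Real.log x)) + (if p ≤ 3 * N then 1 / (n : ℝ) else 0)) := by
      intro p hp
      simp only [Finset.mem_filter, Finset.mem_Ioc] at hp
      have hp0 : (0 : ℝ) < p := by exact_mod_cast hp.2.pos
      have hpE : E ≤ p := by
        have : (N : ℝ) + 1 ≤ p := by exact_mod_cast hp.1.1
        linarith
      have h1 : y ≤ Real.log p := by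
        rw [Real.le_log_iff_exp_le hp0]
        exact hpE
      have hif : 0 ≤ (if p ≤ 3 * N then 1 / (n : ℝ) else 0) := by
        split_ifs
        · exact hn1
        · exact le_rfl
      by_cases h2 : Real.log p ≤ y + l
      · rw [if_pos ⟨by linarith, h2⟩]
        have hp3 : p ≤ 3 * N := by
          have h7 : Real.exp (1 / 4 : ℝ) ≤ 2 := by
            have h8 := Real.exp_bound_div_one_sub_of_interval (x := (1 / 4 : ℝ)) (by norm_num) (by norm_num)
            refine h8.trans (by norm_num)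
          have h9 : (p : ℝ) ≤ E * 2 := by
            have h10 : (p : ℝ) ≤ Real.exp (y + l) := by
              rw [← Real.log_le_iff_le_exp hp0]; exact h2
            have h11 : Real.exp (y + l) ≤ Real.exp y * Real.exp (1 / 4) := by
              rw [← Real.exp_add]
              exact Real.exp_le_exp.2 (by linarith)
            have h12 : Real.exp y * Real.exp (1 / 4) ≤ E * 2 := mul_le_mul_of_nonneg_left h7 hE0.le
            linarith
          have h10 : (p : ℝ) < (2 * N + 2 : ℕ) := by push_cast; linarith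
          have h11 : p < 2 * N + 2 := by exact_mod_cast h10
          have h12 : (4 : ℝ) < N := by linarith
          have h13 : 4 < N := by exact_mod_cast h12
          omega
        rw [if_pos hp3]
        have h4 : sw l (Real.log p - Real.log x) ≤ Real.log p - Real.log x := by
          unfold sw
          split_ifs
          · exact le_rfl
          · linarith
        have h5 : y - Real.log p ≤ -(sw l (Real.log p - Real.log x)) + 1 / n := by linarith
        calc Real.log p * (y - Real.log p) ≤ y * (y - Real.log p) :=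
              mul_le_mul_of_nonpos_right h1 (by linarith)
          _ ≤ _ := mul_le_mul_of_nonneg_left h5 hy0
      · rw [if_neg (fun h => h2 h.2)]
        have h4 : sw l (Real.log p - Real.log x) = 0 := by
          unfold sw
          rw [if_neg]
          rintro ⟨-, h5⟩
          linarith
        rw [h4]
        apply mul_nonneg hy0
        linarith
    refine (Finset.sum_le_sum h1).trans ?_
    rw [← Finset.mul_sum, Finset.sum_add_distrib]
    apply mul_le_mul_of_nonneg_left _ hy0
    have h2 : ∑ p ∈ (Finset.Ioc N M).filter Nat.Prime, (if p ≤ 3 * N then 1 / (n : ℝ) else 0) ≤ 3 := by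
      rw [← Finset.sum_filter, Finset.sum_const, nsmul_eq_mul]
      have h3 : (((Finset.Ioc N M).filter Nat.Prime).filter (fun p => p ≤ 3 * N)).card ≤ 3 * N := by
        have h4 : ((Finset.Ioc N M).filter Nat.Prime).filter (fun p => p ≤ 3 * N) ⊆ Finset.Icc 1 (3 * N) := by
          intro p hp
          simp only [Finset.mem_filter, Finset.mem_Ioc, Finset.mem_Icc] at hp ⊢
          exact ⟨by omega, hp.2⟩
        refine (Finset.card_le_card h4).trans ?_
        rw [Nat.card_Icc]; omega
      have h4 : ((((Finset.Ioc N M).filter Nat.Prime).filter (fun p => p ≤ 3 * N)).card : ℝ) ≤ 3 * E := by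
        have h5 : ((((Finset.Ioc N M).filter Nat.Prime).filter (fun p => p ≤ 3 * N)).card : ℝ) ≤ 3 * N := by
          exact_mod_cast h3
        linarith
      calc ((((Finset.Ioc N M).filter Nat.Prime).filter (fun p => p ≤ 3 * N)).card : ℝ) * (1 / n)
          ≤ 3 * E * (1 / n) := mul_le_mul_of_nonneg_right h4 hn1
        _ = 3 * (E * (1 / n)) := by ring
        _ ≤ 3 * 1 := mul_le_mul_of_nonneg_left hEn (by norm_num)
        _ = 3 := by norm_num
    have h3 : ∑ p ∈ (Finset.Ioc N n).filter Nat.Prime, sw l (Real.log p - Real.log x) ≤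
        ∑ p ∈ (Finset.Ioc N M).filter Nat.Prime, sw l (Real.log p - Real.log x) := by
      have h4 : ∑ p ∈ (Finset.Ioc N n).filter Nat.Prime, sw l (Real.log p - Real.log x) =
          ∑ p ∈ ((Finset.Ioc N n).filter Nat.Prime).filter (fun p => p ≤ M),
            sw l (Real.log p - Real.log x) := by
        rw [Finset.sum_filter (s := (Finset.Ioc N n).filter Nat.Prime)]
        apply Finset.sum_congr rfl
        intro p hp
        split_ifs with h5
        · rfl
        · simp only [Finset.mem_filter] at hp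
          have h6 : (M : ℝ) < p := by exact_mod_cast (not_le.mp h5)
          have hp0 : (0 : ℝ) < p := by exact_mod_cast hp.2.pos
          have h7 : y + 1 < Real.log p := by
            rw [Real.lt_log_iff_exp_lt hp0]
            linarith
          unfold sw
          rw [if_neg]
          rintro ⟨-, h8⟩
          linarith
      rw [h4]
      apply Finset.sum_le_sum_of_subset_of_nonneg
      · intro p hp
        simp only [Finset.mem_filter, Finset.mem_Ioc] at hp ⊢
        exact ⟨⟨hp.1.1.1, hp.2⟩, hp.1.2⟩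
      · intro p _ _
        exact sw_nonneg _ _
    rw [Finset.sum_neg_distrib]
    linarith
  -- the end
  have hfin := mul_le_mul_of_nonneg_left hCM' hy0
  rw [hsum]
  nlinarith [hfin, hA, hB]

/-- The upper bound for `FF`. -/
theorem FFB (hI2 : Pool.Agent.EV.I2_stmt) (ω : ℝ) (hω : 0 ≤ ω) (hH : Pool.Agent.QZ.Hyp ω) (ε : ℝ) (hε : 0 < ε) :
    ∃ K y0 : ℝ, 0 < K ∧ 4 ≤ y0 ∧ ∀ (y l : ℝ) (M : ℕ), y0 ≤ y → 0 < l → l ≤ 1 / 4 → Real.exp (y + 1) ≤ M →
      FF M y l ≤ K * Real.exp ((ω + ε) * y) := by
  have h1 := hH (ε / 4) (by positivity)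
  obtain ⟨n0, hn0⟩ := eventually_atTop.1 h1
  refine ⟨24 / ε, max 4 n0, by positivity, le_max_left _ _, ?_⟩
  intro y l M hyy hl0 hl hM
  have hy4 : 4 ≤ y := le_trans (le_max_left _ _) hyy
  have hyn : (n0 : ℝ) ≤ y := le_trans (le_max_right _ _) hyy
  have hy : 0 ≤ y := by linarith
  set n : ℕ := ⌊Real.exp (2 * y)⌋₊ with hn
  have h2 := FF_large hI2 hl hl0 hy4 n M hn hM
  have hnle : (n : ℝ) ≤ Real.exp (2 * y) := Nat.floor_le (Real.exp_pos _).le
  have hnlt : Real.exp (2 * y) < n + 1 := Nat.lt_floor_add_one _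
  have hexp2 : 2 * y + 1 ≤ Real.exp (2 * y) := Real.add_one_le_exp _
  have hnn : (n0 : ℝ) ≤ n := by linarith
  have hnn0 : n0 ≤ n := by exact_mod_cast hnn
  have hnpos : (0 : ℝ) < n := by linarith
  have hn1 : (1 : ℝ) ≤ n := by linarith
  have h3 := hn0 n hnn0
  have h4 : ((H n : ℝ) - G n + n + 1) / n ≤ (n : ℝ) ^ (ω / 2 + ε / 4) + 2 := by
    rw [div_le_iff₀ hnpos]
    have h5 : (n : ℝ) ^ (1 + ω / 2 + ε / 4 : ℝ) = n * (n : ℝ) ^ (ω / 2 + ε / 4) := by
      have h6 : (1 + ω / 2 + ε / 4 : ℝ) = 1 + (ω / 2 + ε / 4) := by ring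
      rw [h6, Real.rpow_add hnpos, Real.rpow_one]
    rw [h5] at h3
    nlinarith
  have h5 : (n : ℝ) ^ (ω / 2 + ε / 4) ≤ Real.exp ((ω + ε / 2) * y) := by
    refine (Real.rpow_le_rpow hnpos.le hnle (by positivity)).trans ?_
    rw [← Real.exp_mul]
    apply le_of_eq
    congr 1
    ring
  have h6 : y ≤ 2 / ε * Real.exp (ε / 2 * y) := by
    have h7 := Real.add_one_le_exp (ε / 2 * y)
    have h8 : 2 / ε * (ε / 2 * y) = y := by field_simp
    have h9 : 2 / ε * (ε / 2 * y) ≤ 2 / ε * Real.exp (ε / 2 * y) :=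
      mul_le_mul_of_nonneg_left (by linarith) (by positivity)
    linarith
  have h7 : 2 * ((H n : ℝ) - G n + n + 1) / n = 2 * (((H n : ℝ) - G n + n + 1) / n) := by ring
  rw [h7] at h2
  have hX1 : 1 ≤ Real.exp ((ω + ε / 2) * y) := Real.one_le_exp (by positivity)
  have h8 : 2 * (((H n : ℝ) - G n + n + 1) / n) + 6 ≤ 12 * Real.exp ((ω + ε / 2) * y) := by
    nlinarith
  calc FF M y l ≤ y * (2 * (((H n : ℝ) - G n + n + 1) / n) + 6) := h2
    _ ≤ y * (12 * Real.exp ((ω + ε / 2) * y)) := mul_le_mul_of_nonneg_left h8 hy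
    _ ≤ (2 / ε * Real.exp (ε / 2 * y)) * (12 * Real.exp ((ω + ε / 2) * y)) :=
        mul_le_mul_of_nonneg_right h6 (by positivity)
    _ = 24 / ε * (Real.exp (ε / 2 * y) * Real.exp ((ω + ε / 2) * y)) := by ring
    _ = 24 / ε * Real.exp ((ω + ε) * y) := by
        rw [← Real.exp_add]
        congr 2
        ring

end Pool.Agent.GS
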