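import Pool.Agent.helper16.GS.B

/-!
# MP_5a4a8e_nt, project gs: comparison of the tent averages at two scales
-/

set_option autoImplicit false

namespace Pool.Agent.GS

open N1f72dd46 Filter MeasureTheory

/-- the tent function divided by `v²` -/
noncomputable def kk (s v : ℝ) : ℝ := max 0 (v - s) / v ^ 2

lemma kk_cont (s : ℝ) {a b : ℝ} (ha : 0 < a) : ContinuousOn (kk s) (Set.Icc a b) := by
  unfold kk
  apply ContinuousOn.div
  · fun_prop
  · fun_prop
  · intro v hv
    have : 0 < v := lt_of_lt_of_le ha hv.1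
    positivity

lemma kk_deriv (s v : ℝ) (hv : 0 < v) :
    HasDerivWithinAt (kk s) (if s ≤ v then 2 / v ^ 3 * (s - v / 2) else 0) (Set.Ici v) v := by
  split_ifs with h
  · have h1 : HasDerivAt (fun w : ℝ => (w - s) / w ^ 2) (2 / v ^ 3 * (s - v / 2)) v := by
      have h2 : HasDerivAt (fun w : ℝ => w - s) 1 v := (hasDerivAt_id v).sub_const s
      have h3 : HasDerivAt (fun w : ℝ => w ^ 2) (2 * v) v := by
        simpa using hasDerivAt_pow 2 v
      have h4 := h2.div h3 (by positivity)
      refine h4.congr_deriv ?_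
      field_simp
      ring
    refine h1.hasDerivWithinAt.congr ?_ ?_
    · intro w hw
      rw [Set.mem_Ici] at hw
      unfold kk
      rw [max_eq_right (by linarith)]
    · unfold kk
      rw [max_eq_right (by linarith)]
  · push Not at h
    have h1 : HasDerivAt (kk s) 0 v := by
      refine (hasDerivAt_const v (0 : ℝ)).congr_of_eventuallyEq ?_
      filter_upwards [Iio_mem_nhds h] with w hw
      rw [Set.mem_Iio] at hw
      unfold kk
      rw [max_eq_left (by linarith), zero_div]
    exact h1.hasDerivWithinAt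

/-- the tent sum to the left of `e^T` -/
noncomputable def AL (M : ℕ) (T v : ℝ) : ℝ :=
  ∑ p ∈ (Finset.Icc 1 M).filter Nat.Prime,
    if Real.log p ≤ T then Real.log p * kk (T - Real.log p) v else 0

/-- the tent sum to the right of `e^T` -/
noncomputable def AR (M : ℕ) (T v : ℝ) : ℝ :=
  ∑ p ∈ (Finset.Icc 1 M).filter Nat.Prime,
    if T ≤ Real.log p then Real.log p * kk (Real.log p - T) v else 0

lemma AL_cont (M : ℕ) (T : ℝ) {a b : ℝ} (ha : 0 < a) : ContinuousOn (AL M T) (Set.Icc a b) := by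
  unfold AL
  apply continuousOn_finset_sum
  intro p _
  split_ifs
  · exact continuousOn_const.mul (kk_cont _ ha)
  · exact continuousOn_const

lemma AR_cont (M : ℕ) (T : ℝ) {a b : ℝ} (ha : 0 < a) : ContinuousOn (AR M T) (Set.Icc a b) := by
  unfold AR
  apply continuousOn_finset_sum
  intro p _
  split_ifs
  · exact continuousOn_const.mul (kk_cont _ ha)
  · exact continuousOn_const

lemma AL_deriv (M : ℕ) (T v : ℝ) (hv : 0 < v) :
    HasDerivWithinAt (AL M T) (2 / v ^ 3 * FF M (T - v / 2) (v / 2)) (Set.Ici v) v := by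
  have h1 : 2 / v ^ 3 * FF M (T - v / 2) (v / 2) = ∑ p ∈ (Finset.Icc 1 M).filter Nat.Prime,
      if Real.log p ≤ T then Real.log p *
        (if T - Real.log p ≤ v then 2 / v ^ 3 * ((T - Real.log p) - v / 2) else 0) else 0 := by
    unfold FF
    rw [Finset.mul_sum]
    apply Finset.sum_congr rfl
    intro p _
    by_cases h2 : Real.log p ≤ T
    · rw [if_pos h2]
      by_cases h3 : T - Real.log p ≤ v
      · rw [if_pos h3, if_pos ⟨by linarith, by linarith⟩]
        ring
      · rw [if_neg h3, if_neg (fun h => h3 (by linarith [h.1]))]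
        ring
    · rw [if_neg h2, if_neg (fun h => h2 (by linarith [h.2]))]
      ring
  rw [h1]
  unfold AL
  apply HasDerivWithinAt.fun_sum
  intro p _
  by_cases h2 : Real.log p ≤ T
  · simp only [if_pos h2]
    exact (kk_deriv (T - Real.log p) v hv).const_mul _
  · simp only [if_neg h2]
    exact hasDerivWithinAt_const _ _ _

lemma AR_deriv (M : ℕ) (T v : ℝ) (hv : 0 < v) :
    HasDerivWithinAt (AR M T) (-(2 / v ^ 3 * FF M (T + v / 2) (v / 2))) (Set.Ici v) v := by
  have h1 : -(2 / v ^ 3 * FF M (T + v / 2) (v / 2)) = ∑ p ∈ (Finset.Icc 1 M).filter Nat.Prime,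
      if T ≤ Real.log p then Real.log p *
        (if Real.log p - T ≤ v then 2 / v ^ 3 * ((Real.log p - T) - v / 2) else 0) else 0 := by
    unfold FF
    rw [Finset.mul_sum, ← Finset.sum_neg_distrib]
    apply Finset.sum_congr rfl
    intro p _
    by_cases h2 : T ≤ Real.log p
    · rw [if_pos h2]
      by_cases h3 : Real.log p - T ≤ v
      · rw [if_pos h3, if_pos ⟨by linarith, by linarith⟩]
        ring
      · rw [if_neg h3, if_neg (fun h => h3 (by linarith [h.2]))]
        ring
    · rw [if_neg h2, if_neg (fun h => h2 (by linarith [h.1]))]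
      ring
  rw [h1]
  unfold AR
  apply HasDerivWithinAt.fun_sum
  intro p _
  by_cases h2 : T ≤ Real.log p
  · simp only [if_pos h2]
    exact (kk_deriv (Real.log p - T) v hv).const_mul _
  · simp only [if_neg h2]
    exact hasDerivWithinAt_const _ _ _

lemma inv_deriv (C E v : ℝ) (hv : 0 < v) :
    HasDerivAt (fun w : ℝ => C - E / w ^ 2) (2 / v ^ 3 * E) v := by
  have h3 : HasDerivAt (fun w : ℝ => w ^ 2) (2 * v) v := by
    simpa using hasDerivAt_pow 2 v
  have h4 : HasDerivAt (fun w : ℝ => E / w ^ 2) (-(2 / v ^ 3 * E)) v := by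
    have h5 := (hasDerivAt_const v E).div h3 (by positivity)
    refine h5.congr_deriv ?_
    field_simp
    ring
  have h6 := (hasDerivAt_const v C).sub h4
  refine h6.congr_deriv ?_
  ring

/-- left side -/
theorem ScL (M : ℕ) (T v0 v1 E : ℝ) (h0 : 0 < v0) (h01 : v0 ≤ v1) (hE0 : 0 ≤ E)
    (hE : ∀ v, v0 ≤ v → v ≤ v1 → FF M (T - v / 2) (v / 2) ≤ E) :
    AL M T v1 ≤ AL M T v0 + E / v0 ^ 2 := by
  have key := image_le_of_deriv_right_le_deriv_boundary (f := AL M T)
    (f' := fun v => 2 / v ^ 3 * FF M (T - v / 2) (v / 2)) (a := v0) (b := v1)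
    (AL_cont M T h0) (fun v hv => AL_deriv M T v (lt_of_lt_of_le h0 hv.1))
    (B := fun v => (AL M T v0 + E / v0 ^ 2) - E / v ^ 2) (B' := fun v => 2 / v ^ 3 * E)
    (by linarith)
    (fun v hv => (inv_deriv _ E v (lt_of_lt_of_le h0 hv.1)).continuousAt.continuousWithinAt)
    (fun v hv => (inv_deriv _ E v (lt_of_lt_of_le h0 hv.1)).hasDerivWithinAt)
    (by
      intro v hv
      have hv0 : 0 < v := lt_of_lt_of_le h0 hv.1
      exact mul_le_mul_of_nonneg_left (hE v hv.1 hv.2.le) (by positivity))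
    (Set.right_mem_Icc.2 h01)
  have hv1 : 0 < v1 := lt_of_lt_of_le h0 h01
  have : 0 ≤ E / v1 ^ 2 := by positivity
  linarith

/-- right side -/
theorem ScR (M : ℕ) (T v0 v1 E : ℝ) (h0 : 0 < v0) (h01 : v0 ≤ v1) (hE0 : 0 ≤ E)
    (hE : ∀ v, v0 ≤ v → v ≤ v1 → FF M (T + v / 2) (v / 2) ≤ E) :
    AR M T v0 ≤ AR M T v1 + E / v0 ^ 2 := by
  have key := image_le_of_deriv_right_le_deriv_boundary (f := fun v => -(AR M T v))
    (f' := fun v => -(-(2 / v ^ 3 * FF M (T + v / 2) (v / 2)))) (a := v0) (b := v1)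
    ((AR_cont M T h0).neg) (fun v hv => (AR_deriv M T v (lt_of_lt_of_le h0 hv.1)).neg)
    (B := fun v => (-(AR M T v0) + E / v0 ^ 2) - E / v ^ 2) (B' := fun v => 2 / v ^ 3 * E)
    (by linarith)
    (fun v hv => (inv_deriv _ E v (lt_of_lt_of_le h0 hv.1)).continuousAt.continuousWithinAt)
    (fun v hv => (inv_deriv _ E v (lt_of_lt_of_le h0 hv.1)).hasDerivWithinAt)
    (by
      intro v hv
      have hv0 : 0 < v := lt_of_lt_of_le h0 hv.1
      rw [neg_neg]
      exact mul_le_mul_of_nonneg_left (hE v hv.1 hv.2.le) (by positivity))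
    (Set.right_mem_Icc.2 h01)
  have hv1 : 0 < v1 := lt_of_lt_of_le h0 h01
  have : 0 ≤ E / v1 ^ 2 := by positivity
  linarith

end Pool.Agent.GS
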