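import Pool.Agent.helper16.GS.C

/-!
# MP_5a4a8e_nt, project gs: the tent averages as integrals
-/

set_option autoImplicit false

namespace Pool.Agent.GS

open N1f72dd46 Filter MeasureTheory

/-- `θ(e^t)` -/
noncomputable def V (t : ℝ) : ℝ := Chebyshev.theta (Real.exp t)

/-- `θ(e^t) - e^t` -/
noncomputable def R (t : ℝ) : ℝ := V t - Real.exp t

lemma V_mono : Monotone V := fun _ _ h => Chebyshev.theta_mono (Real.exp_le_exp.2 h)

lemma V_eq (M : ℕ) (t : ℝ) (hM : Real.exp t ≤ M) :
    V t = ∑ p ∈ (Finset.Icc 1 M).filter Nat.Prime, if Real.log p ≤ t then Real.log p else 0 := by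
  unfold V Chebyshev.theta
  rw [← Finset.sum_filter]
  apply Finset.sum_congr
  · ext p
    simp only [Finset.mem_filter, Finset.mem_Ioc, Finset.mem_Icc]
    constructor
    · rintro ⟨⟨h1, h2⟩, h3⟩
      have hp0 : (0 : ℝ) < p := by exact_mod_cast h1
      have h4 : (p : ℝ) ≤ Real.exp t := (Nat.le_floor_iff (Real.exp_pos t).le).1 h2
      refine ⟨⟨⟨h1, ?_⟩, h3⟩, (Real.log_le_iff_le_exp hp0).2 h4⟩
      exact_mod_cast h4.trans hM
    · rintro ⟨⟨⟨h1, h2⟩, h3⟩, h4⟩
      have hp0 : (0 : ℝ) < p := by exact_mod_cast h1
      exact ⟨⟨h1, (Nat.le_floor_iff (Real.exp_pos t).le).2 ((Real.log_le_iff_le_exp hp0).1 h4)⟩, h3⟩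
  · intro p _
    rfl

lemma step_int (a b c : ℝ) : IntervalIntegrable (fun t : ℝ => if c ≤ t then (1 : ℝ) else 0) volume a b := by
  apply Monotone.intervalIntegrable
  intro s t hst
  dsimp only
  split_ifs with h1 h2 h2
  · exact le_rfl
  · exact absurd (h1.trans hst) h2
  · exact zero_le_one
  · exact le_rfl

lemma step_val (a b c : ℝ) (hab : a ≤ b) (hcb : c ≤ b) :
    ∫ t in a..b, (if c ≤ t then (1 : ℝ) else 0) = b - a - max 0 (c - a) := by
  rcases le_or_gt c a with h | h
  · rw [max_eq_left (by linarith)]
    have h1 : ∫ t in a..b, (if c ≤ t then (1 : ℝ) else 0) = ∫ t in a..b, (1 : ℝ) := by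
      apply intervalIntegral.integral_congr
      intro t ht
      rw [Set.uIcc_of_le hab] at ht
      dsimp only
      rw [if_pos (h.trans ht.1)]
    rw [h1, intervalIntegral.integral_const, smul_eq_mul, mul_one, sub_zero]
  · rw [max_eq_right (by linarith)]
    rw [← intervalIntegral.integral_add_adjacent_intervals (step_int a c c) (step_int c b c)]
    have h1 : ∫ t in c..b, (if c ≤ t then (1 : ℝ) else 0) = ∫ t in c..b, (1 : ℝ) := by
      apply intervalIntegral.integral_congr
      intro t ht
      rw [Set.uIcc_of_le hcb] at ht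
      dsimp only
      rw [if_pos ht.1]
    have h2 : ∫ t in a..c, (if c ≤ t then (1 : ℝ) else 0) = 0 := by
      rw [intervalIntegral.integral_of_le h.le, MeasureTheory.integral_Ioc_eq_integral_Ioo]
      rw [MeasureTheory.setIntegral_congr_fun (g := fun _ => (0 : ℝ)) measurableSet_Ioo]
      · simp
      · intro t ht
        dsimp only
        rw [if_neg (not_le.2 ht.2)]
    rw [h1, h2, intervalIntegral.integral_const, smul_eq_mul, mul_one]
    ring

/-- the value of `v² AL` -/
lemma AL_int (M : ℕ) (T v : ℝ) (hv : 0 < v) (hM : Real.exp T ≤ M) :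
    AL M T v * v ^ 2 = ∫ t in (T - v)..T, (V T - V t) := by
  have h1 : ∫ t in (T - v)..T, (V T - V t) = ∫ t in (T - v)..T,
      ∑ p ∈ (Finset.Icc 1 M).filter Nat.Prime, ((if Real.log p ≤ T then Real.log p else 0) -
        Real.log p * (if Real.log p ≤ t then (1 : ℝ) else 0)) := by
    apply intervalIntegral.integral_congr
    intro t ht
    rw [Set.uIcc_of_le (by linarith)] at ht
    dsimp only
    rw [V_eq M T hM, V_eq M t (le_trans (Real.exp_le_exp.2 ht.2) hM), ← Finset.sum_sub_distrib]
    apply Finset.sum_congr rfl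
    intro p _
    rw [mul_ite, mul_one, mul_zero]
  rw [h1, intervalIntegral.integral_finset_sum]
  · unfold AL
    rw [Finset.sum_mul]
    apply Finset.sum_congr rfl
    intro p _
    rw [intervalIntegral.integral_sub (by simp) ((step_int _ _ _).const_mul _),
      intervalIntegral.integral_const_mul, intervalIntegral.integral_const, smul_eq_mul]
    by_cases h2 : Real.log p ≤ T
    · rw [if_pos h2, if_pos h2, step_val _ _ _ (by linarith) h2]
      unfold kk
      have h3 : Real.log p - (T - v) = v - (T - Real.log p) := by ring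
      rw [h3]
      field_simp
      ring
    · rw [if_neg h2, if_neg h2]
      have h3 : ∫ t in (T - v)..T, (if Real.log p ≤ t then (1 : ℝ) else 0) = 0 := by
        rw [intervalIntegral.integral_congr (g := fun _ => (0 : ℝ))]
        · simp
        · intro t ht
          rw [Set.uIcc_of_le (by linarith)] at ht
          dsimp only
          rw [if_neg (fun h => h2 (h.trans ht.2))]
      rw [h3]
      ring
  · intro p _
    exact IntervalIntegrable.sub (by simp) ((step_int _ _ _).const_mul _)

/-- bounds for `v² AR` -/
lemma AR_int (M : ℕ) (T v : ℝ) (hT : 0 ≤ T) (hv : 0 < v) (hM : Real.exp (T + v) ≤ M) :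
    (∫ t in T..(T + v), (V t - V T)) ≤ AR M T v * v ^ 2 ∧
    AR M T v * v ^ 2 ≤ (∫ t in T..(T + v), (V t - V T)) + T * v := by
  have h1 : ∫ t in T..(T + v), (V t - V T) = ∫ t in T..(T + v),
      ∑ p ∈ (Finset.Icc 1 M).filter Nat.Prime, (Real.log p * (if Real.log p ≤ t then (1 : ℝ) else 0) -
        (if Real.log p ≤ T then Real.log p else 0)) := by
    apply intervalIntegral.integral_congr
    intro t ht
    rw [Set.uIcc_of_le (by linarith)] at ht
    dsimp only
    rw [V_eq M T (le_trans (Real.exp_le_exp.2 (by linarith)) hM),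
      V_eq M t (le_trans (Real.exp_le_exp.2 ht.2) hM), ← Finset.sum_sub_distrib]
    apply Finset.sum_congr rfl
    intro p _
    rw [mul_ite, mul_one, mul_zero]
  have h2 : ∫ t in T..(T + v), (V t - V T) = ∑ p ∈ (Finset.Icc 1 M).filter Nat.Prime,
      (Real.log p * (∫ t in T..(T + v), (if Real.log p ≤ t then (1 : ℝ) else 0)) -
        v * (if Real.log p ≤ T then Real.log p else 0)) := by
    rw [h1, intervalIntegral.integral_finset_sum]
    · apply Finset.sum_congr rfl
      intro p _
      rw [intervalIntegral.integral_sub ((step_int _ _ _).const_mul _) (by simp),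
        intervalIntegral.integral_const_mul, intervalIntegral.integral_const, smul_eq_mul]
      ring
    · intro p _
      exact IntervalIntegrable.sub ((step_int _ _ _).const_mul _) (by simp)
  -- the terms
  have h3 : ∀ p ∈ (Finset.Icc 1 M).filter Nat.Prime,
      (if T ≤ Real.log p then Real.log p * kk (Real.log p - T) v else 0) * v ^ 2 =
      (Real.log p * (∫ t in T..(T + v), (if Real.log p ≤ t then (1 : ℝ) else 0)) -
        v * (if Real.log p ≤ T then Real.log p else 0)) + (if Real.log p = T then T * v else 0) := by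
    intro p _
    rcases lt_trichotomy (Real.log p) T with h | h | h
    · rw [if_neg (not_le.2 h), if_pos h.le, if_neg h.ne]
      have h4 : ∫ t in T..(T + v), (if Real.log p ≤ t then (1 : ℝ) else 0) = v := by
        rw [step_val _ _ _ (by linarith) (by linarith), max_eq_left (by linarith)]
        ring
      rw [h4]
      ring
    · rw [if_pos h.ge, if_pos h.le, if_pos h]
      have h4 : ∫ t in T..(T + v), (if Real.log p ≤ t then (1 : ℝ) else 0) = v := by
        rw [step_val _ _ _ (by linarith) (by linarith), max_eq_left (by linarith)]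
        ring
      rw [h4]
      unfold kk
      rw [h, sub_self, sub_zero, max_eq_right hv.le]
      field_simp
      ring
    · rw [if_pos h.le, if_neg (not_le.2 h), if_neg h.ne']
      unfold kk
      rcases le_or_gt (Real.log p) (T + v) with h5 | h5
      · rw [step_val _ _ _ (by linarith) h5, max_eq_right (by linarith), max_eq_right (by linarith)]
        field_simp
        ring
      · have h4 : ∫ t in T..(T + v), (if Real.log p ≤ t then (1 : ℝ) else 0) = 0 := by
          rw [intervalIntegral.integral_congr (g := fun _ => (0 : ℝ))]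
          · simp
          · intro t ht
            rw [Set.uIcc_of_le (by linarith)] at ht
            dsimp only
            rw [if_neg (fun h => by linarith [ht.2])]
        rw [h4, max_eq_left (by linarith)]
        ring
  have h4 : AR M T v * v ^ 2 = (∫ t in T..(T + v), (V t - V T)) +
      ∑ p ∈ (Finset.Icc 1 M).filter Nat.Prime, (if Real.log p = T then T * v else 0) := by
    rw [h2, ← Finset.sum_add_distrib]
    unfold AR
    rw [Finset.sum_mul]
    exact Finset.sum_congr rfl h3
  have h5 : 0 ≤ ∑ p ∈ (Finset.Icc 1 M).filter Nat.Prime, (if Real.log p = T then T * v else 0) := by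
    apply Finset.sum_nonneg
    intro p _
    split_ifs
    · positivity
    · exact le_rfl
  have h6 : ∑ p ∈ (Finset.Icc 1 M).filter Nat.Prime, (if Real.log p = T then T * v else 0) ≤ T * v := by
    rw [← Finset.sum_filter, Finset.sum_const, nsmul_eq_mul]
    have h7 : (((Finset.Icc 1 M).filter Nat.Prime).filter (fun p : ℕ => Real.log p = T)).card ≤ 1 := by
      rw [Finset.card_le_one]
      intro a ha b hb
      simp only [Finset.mem_filter, Finset.mem_Icc] at ha hb
      have ha0 : (0 : ℝ) < a := by exact_mod_cast ha.1.2.pos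
      have hb0 : (0 : ℝ) < b := by exact_mod_cast hb.1.2.pos
      have h8 := Real.log_injOn_pos (Set.mem_Ioi.2 ha0) (Set.mem_Ioi.2 hb0) (ha.2.trans hb.2.symm)
      exact_mod_cast h8
    have h8 : ((((Finset.Icc 1 M).filter Nat.Prime).filter (fun p : ℕ => Real.log p = T)).card : ℝ) ≤ 1 := by
      exact_mod_cast h7
    have h9 : 0 ≤ T * v := by positivity
    nlinarith
  constructor
  · linarith
  · linarith

end Pool.Agent.GS
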