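import Mathlib

/-!
# MP_5a4a8e_nt, project gs: statement of the analytic lemma S4 (pure real analysis)

Paper proof: Step 4 of /team-store/C6_MP_5a4a8e_nt_helper16.md. Write `R t = V t - exp t`, `g = (1+f)/2`.
`h ≥ x^g/4`: use `|R| ≤ C exp (f t)` directly. Otherwise `t0 = log x`, `t1 = log (x+h)`, `t1 - t0 ≤ h/x`.
(-) `R t1 - R t0 = -D < 0`: `T ∈ [t0, t1]` with `R T ≤ inf R + τ`; `R ≥ R t0 - D/2` on `[t0, t0 + D/(4x)]` (`V` monotone), so with `v = T - t0`: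
`D²/(8x) - τ v ≤ ∫_(T-v)^T (R t - R T) ≤ K exp (bT) + K v² exp (gT)`, `v ≤ h/x`.
(+) `R t1 - R t0 = D > 0`: `T ∈ [t0, t1]` with `R T ≤ inf R + τ`; `R ≥ R t1 - D/2` on `[t1, t1 + D/(4(x+h))]`, `v = t1 + D/(4(x+h)) - T ≤ (h + D)/x`;
the term with `D²` is absorbed for large `x`.
-/

set_option autoImplicit false

namespace Pool.Agent.GS

/-- S4. From the integral bounds to a pointwise bound. -/
def S4_stmt : Prop := ∀ (V : ℝ → ℝ) (f C b K T0 : ℝ), Monotone V → 1 / 2 ≤ f → f < 1 → 0 < C → 0 ≤ b → 0 < K →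
  (∀ t : ℝ, 0 ≤ t → |V t - Real.exp t| ≤ C * Real.exp (f * t)) →
  (∀ T v : ℝ, T0 ≤ T → 0 < v → v ≤ Real.exp (-((1 - f) / 2) * T) →
    ∫ t in (T - v)..T, ((V t - Real.exp t) - (V T - Real.exp T)) ≤
      K * Real.exp (b * T) + K * v ^ 2 * Real.exp ((1 + f) / 2 * T)) →
  (∀ T v : ℝ, T0 ≤ T → 0 < v → v ≤ Real.exp (-((1 - f) / 2) * T) →
    ∫ t in T..(T + v), ((V t - Real.exp t) - (V T - Real.exp T)) ≤
      K * Real.exp (b * T) + K * v ^ 2 * Real.exp ((1 + f) / 2 * T)) →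
  ∃ K' x0 : ℝ, 0 < K' ∧ 1 ≤ x0 ∧ ∀ x h : ℝ, x0 ≤ x → 0 ≤ h → h ≤ x →
    |V (Real.log (x + h)) - V (Real.log x) - h| ≤ K' * (x ^ ((1 + b) / 2) + h * x ^ (-((1 - f) / 4)))

end Pool.Agent.GS
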