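import Pool.Agent.helper16.GS.D
import Pool.Agent.helper16.GS.SpecS

/-!
# MP_5a4a8e_nt, project gs: Step 3, the large scale
-/

set_option autoImplicit false

namespace Pool.Agent.GS

open N1f72dd46 Filter MeasureTheory

lemma exp_taylor {z : ℝ} (hz : |z| ≤ 1) : |Real.exp z - (1 + z + z ^ 2 / 2)| ≤ |z| ^ 3 * (2 / 9) := by
  have h := Real.exp_bound (x := z) hz (n := 3) (by norm_num)
  have h1 : ∑ m ∈ Finset.range 3, z ^ m / (m.factorial : ℝ) = 1 + z + z ^ 2 / 2 := by
    simp [Finset.sum_range_succ, Nat.factorial]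
  rw [h1] at h
  refine h.trans (le_of_eq ?_)
  congr 1
  norm_num [Nat.factorial]

lemma V_int (a b : ℝ) : IntervalIntegrable V volume a b := V_mono.intervalIntegrable

lemma exp_int (a b : ℝ) : IntervalIntegrable Real.exp volume a b := Real.continuous_exp.intervalIntegrable _ _

lemma R_int (a b : ℝ) : IntervalIntegrable R volume a b := (V_int a b).sub (exp_int a b)

lemma left_split (T v : ℝ) : ∫ t in (T - v)..T, (V T - V t) =
    (v * Real.exp T - (Real.exp T - Real.exp (T - v))) - ∫ t in (T - v)..T, (R t - R T) := by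
  have h1 : ∀ t : ℝ, V T - V t = (Real.exp T - Real.exp t) - (R t - R T) := by
    intro t
    unfold R
    ring
  simp_rw [h1]
  rw [intervalIntegral.integral_sub]
  · congr 1
    rw [intervalIntegral.integral_sub (by simp) (exp_int _ _), integral_exp, intervalIntegral.integral_const,
      smul_eq_mul]
    ring
  · exact IntervalIntegrable.sub (by simp) (exp_int _ _)
  · exact IntervalIntegrable.sub (R_int _ _) (by simp)

lemma right_split (T v : ℝ) : ∫ t in T..(T + v), (V t - V T) =
    ((Real.exp (T + v) - Real.exp T) - v * Real.exp T) + ∫ t in T..(T + v), (R t - R T) := by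
  have h1 : ∀ t : ℝ, V t - V T = (Real.exp t - Real.exp T) + (R t - R T) := by
    intro t
    unfold R
    ring
  simp_rw [h1]
  rw [intervalIntegral.integral_add]
  · congr 1
    rw [intervalIntegral.integral_sub (exp_int _ _) (by simp), integral_exp, intervalIntegral.integral_const,
      smul_eq_mul]
    ring
  · exact IntervalIntegrable.sub (exp_int _ _) (by simp)
  · exact IntervalIntegrable.sub (R_int _ _) (by simp)

/-- the integral bounds -/
theorem PB (hI2 : Pool.Agent.EV.I2_stmt) (ω : ℝ) (hω : 0 ≤ ω) (hH : Pool.Agent.QZ.Hyp ω) (ε : ℝ) (hε : 0 < ε)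
    (f C : ℝ) (hf : 1 / 2 ≤ f) (hf1 : f < 1) (hC : 0 < C)
    (hR : ∀ t : ℝ, 0 ≤ t → |R t| ≤ C * Real.exp (f * t)) :
    ∃ K T0 : ℝ, 0 < K ∧
      (∀ T v : ℝ, T0 ≤ T → 0 < v → v ≤ Real.exp (-((1 - f) / 2) * T) →
        ∫ t in (T - v)..T, (R t - R T) ≤
          K * Real.exp ((ω + ε) * T) + K * v ^ 2 * Real.exp ((1 + f) / 2 * T)) ∧
      (∀ T v : ℝ, T0 ≤ T → 0 < v → v ≤ Real.exp (-((1 - f) / 2) * T) →
        ∫ t in T..(T + v), (R t - R T) ≤
          K * Real.exp ((ω + ε) * T) + K * v ^ 2 * Real.exp ((1 + f) / 2 * T)) := by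
  obtain ⟨K1, y0, hK1, hy0, hFF⟩ := FFB hI2 ω hω hH ε hε
  set b : ℝ := ω + ε with hb
  have hb0 : 0 < b := by rw [hb]; linarith
  have h1f : 0 < 1 - f := by linarith
  set c1 : ℝ := Real.exp b with hc1
  have hc1' : 1 ≤ c1 := Real.one_le_exp hb0.le
  have he1 : Real.exp 1 ≤ 3 := by have := Real.exp_one_lt_d9; linarith
  set K : ℝ := K1 * c1 + 3 + 6 * C with hK
  refine ⟨K, max (y0 + 1) (2 / (1 - f)), by positivity, ?_, ?_⟩
  · intro T v hT hv0 hv
    have hT1 : y0 + 1 ≤ T := (le_max_left _ _).trans hT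
    have hT2 : 2 / (1 - f) ≤ T := (le_max_right _ _).trans hT
    set v1 : ℝ := Real.exp (-((1 - f) / 2) * T) with hv1
    have hv1p : 0 < v1 := Real.exp_pos _
    have hv1h : v1 ≤ 1 / 2 := by
      have h1 : 1 ≤ (1 - f) / 2 * T := by
        rw [div_le_iff₀ h1f] at hT2
        linarith
      have h2 : v1 ≤ Real.exp (-1) := by
        rw [hv1]
        apply Real.exp_le_exp.2
        linarith
      have h3 : Real.exp (-1) ≤ 1 / 2 := by
        rw [Real.exp_neg, one_div]
        apply inv_anti₀ (by norm_num)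
        have := Real.add_one_le_exp (1 : ℝ)
        linarith
      linarith
    set M : ℕ := ⌈Real.exp (T + 2)⌉₊ with hM
    have hMle : Real.exp (T + 2) ≤ M := Nat.le_ceil _
    have hMT : Real.exp T ≤ M := (Real.exp_le_exp.2 (by linarith)).trans hMle
    set E : ℝ := K1 * Real.exp (b * T) with hE
    have hE0 : 0 ≤ E := by positivity
    have hsc := ScL M T v v1 E hv0 hv hE0 (by
      intro w hw1 hw2
      refine (hFF (T - w / 2) (w / 2) M (by linarith) (by linarith) (by linarith)
        ((Real.exp_le_exp.2 (by linarith)).trans hMle)).trans ?_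
      rw [hE]
      apply mul_le_mul_of_nonneg_left _ hK1.le
      apply Real.exp_le_exp.2
      apply mul_le_mul_of_nonneg_left _ hb0.le
      linarith)
    have hA1 := AL_int M T v1 hv1p hMT
    have hA0 := AL_int M T v hv0 hMT
    rw [left_split] at hA1 hA0
    set P1 : ℝ := ∫ t in (T - v1)..T, (R t - R T) with hP1
    set P0 : ℝ := ∫ t in (T - v)..T, (R t - R T) with hP0
    -- the bound for P1
    have hP1b : P1 ≤ 2 * C * Real.exp (f * T) * v1 := by
      have h1 : ∀ t ∈ Set.uIoc (T - v1) T, ‖R t - R T‖ ≤ 2 * C * Real.exp (f * T) := by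
        intro t ht
        rw [Set.uIoc_of_le (by linarith)] at ht
        have ht0 : 0 ≤ t := by linarith [ht.1]
        have h2 := hR t ht0
        have h3 := hR T (by linarith)
        have h4 : Real.exp (f * t) ≤ Real.exp (f * T) := by
          apply Real.exp_le_exp.2
          apply mul_le_mul_of_nonneg_left ht.2 (by linarith)
        rw [Real.norm_eq_abs]
        have h5 := abs_sub (R t) (R T)
        nlinarith
      have h2 := intervalIntegral.norm_integral_le_of_norm_le_const h1
      have h3 : |T - (T - v1)| = v1 := by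
        rw [abs_of_nonneg (by linarith)]
        ring
      rw [h3] at h2
      have h4 := le_abs_self P1
      rw [Real.norm_eq_abs] at h2
      linarith
    -- expansions
    have hexp1 : Real.exp (T - v1) = Real.exp T * Real.exp (-v1) := by rw [← Real.exp_add]; ring_nf
    have hexp0 : Real.exp (T - v) = Real.exp T * Real.exp (-v) := by rw [← Real.exp_add]; ring_nf
    have ht1 := exp_taylor (z := -v1) (by rw [abs_neg, abs_of_pos hv1p]; linarith)
    have ht0 := exp_taylor (z := -v) (by rw [abs_neg, abs_of_pos hv0]; linarith)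
    rw [abs_neg, abs_of_pos hv1p] at ht1
    rw [abs_neg, abs_of_pos hv0] at ht0
    rw [abs_le] at ht1 ht0
    have hXp : 0 < Real.exp T := Real.exp_pos T
    have hX1 : Real.exp T * v1 = Real.exp ((1 + f) / 2 * T) := by
      rw [hv1, ← Real.exp_add]
      congr 1
      ring
    have hX2 : Real.exp (f * T) = Real.exp ((1 + f) / 2 * T) * v1 := by
      rw [hv1, ← Real.exp_add]
      congr 1
      ring
    set X : ℝ := Real.exp ((1 + f) / 2 * T) with hX
    have hX0 : 0 < X := Real.exp_pos _
    -- lower bound for AL v1, upper bound for AL v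
    have hL : Real.exp T * (1 / 2 - 2 / 9 * v1) - 2 * C * X ≤ AL M T v1 := by
      have h1 : (Real.exp T * (1 / 2 - 2 / 9 * v1) - 2 * C * X) * v1 ^ 2 ≤ AL M T v1 * v1 ^ 2 := by
        rw [hA1, hexp1]
        have h2 : P1 ≤ 2 * C * X * v1 ^ 2 := by
          rw [hX2] at hP1b
          nlinarith
        have h3 : Real.exp T * (1 - v1 + v1 ^ 2 / 2 - v1 ^ 3 * (2 / 9)) ≤ Real.exp T * Real.exp (-v1) := by
          apply mul_le_mul_of_nonneg_left _ hXp.le
          nlinarith [ht1.1]
        nlinarith
      exact le_of_mul_le_mul_right h1 (by positivity)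
    have hU : AL M T v * v ^ 2 ≤ Real.exp T * (1 / 2 + 2 / 9 * v) * v ^ 2 - P0 := by
      rw [hA0, hexp0]
      have h3 : Real.exp T * Real.exp (-v) ≤ Real.exp T * (1 - v + v ^ 2 / 2 + v ^ 3 * (2 / 9)) := by
        apply mul_le_mul_of_nonneg_left _ hXp.le
        nlinarith [ht0.2]
      nlinarith
    have hsc2 : AL M T v1 * v ^ 2 ≤ AL M T v * v ^ 2 + E := by
      have h1 := mul_le_mul_of_nonneg_right hsc (sq_nonneg v)
      have h2 : (AL M T v + E / v ^ 2) * v ^ 2 = AL M T v * v ^ 2 + E := by
        field_simp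
      linarith
    have hL2 := mul_le_mul_of_nonneg_right hL (sq_nonneg v)
    have hfin : P0 ≤ E + v ^ 2 * (Real.exp T * (2 / 9 * v + 2 / 9 * v1) + 2 * C * X) := by
      nlinarith
    have h4 : Real.exp T * (2 / 9 * v + 2 / 9 * v1) ≤ X := by
      rw [← hX1]
      nlinarith
    have h5 : v ^ 2 * (Real.exp T * (2 / 9 * v + 2 / 9 * v1) + 2 * C * X) ≤ v ^ 2 * (X + 2 * C * X) :=
      mul_le_mul_of_nonneg_left (by linarith) (sq_nonneg v)
    have h6 : E ≤ K * Real.exp (b * T) := by
      rw [hE, hK]
      apply mul_le_mul_of_nonneg_right _ (Real.exp_pos _).le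
      nlinarith
    have h7 : v ^ 2 * (X + 2 * C * X) ≤ K * v ^ 2 * X := by
      have h8 : (1 + 2 * C) ≤ K := by
        rw [hK]
        nlinarith
      have h9 : 0 ≤ v ^ 2 * X := by positivity
      nlinarith
    linarith
  · intro T v hT hv0 hv
    have hT1 : y0 + 1 ≤ T := (le_max_left _ _).trans hT
    have hT2 : 2 / (1 - f) ≤ T := (le_max_right _ _).trans hT
    set v1 : ℝ := Real.exp (-((1 - f) / 2) * T) with hv1
    have hv1p : 0 < v1 := Real.exp_pos _
    have hv1h : v1 ≤ 1 / 2 := by
      have h1 : 1 ≤ (1 - f) / 2 * T := by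
        rw [div_le_iff₀ h1f] at hT2
        linarith
      have h2 : v1 ≤ Real.exp (-1) := by
        rw [hv1]
        apply Real.exp_le_exp.2
        linarith
      have h3 : Real.exp (-1) ≤ 1 / 2 := by
        rw [Real.exp_neg, one_div]
        apply inv_anti₀ (by norm_num)
        have := Real.add_one_le_exp (1 : ℝ)
        linarith
      linarith
    set M : ℕ := ⌈Real.exp (T + 2)⌉₊ with hM
    have hMle : Real.exp (T + 2) ≤ M := Nat.le_ceil _
    set E : ℝ := K1 * c1 * Real.exp (b * T) with hE
    have hE0 : 0 ≤ E := by positivity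
    have hsc := ScR M T v v1 E hv0 hv hE0 (by
      intro w hw1 hw2
      refine (hFF (T + w / 2) (w / 2) M (by linarith) (by linarith) (by linarith)
        ((Real.exp_le_exp.2 (by linarith)).trans hMle)).trans ?_
      rw [hE, mul_assoc]
      apply mul_le_mul_of_nonneg_left _ hK1.le
      rw [hc1, ← Real.exp_add]
      apply Real.exp_le_exp.2
      nlinarith)
    have hT0 : 0 ≤ T := by linarith
    have hA1 := (AR_int M T v1 hT0 hv1p ((Real.exp_le_exp.2 (by linarith)).trans hMle)).2
    have hA0 := (AR_int M T v hT0 hv0 ((Real.exp_le_exp.2 (by linarith)).trans hMle)).1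
    rw [right_split] at hA1 hA0
    set P1 : ℝ := ∫ t in T..(T + v1), (R t - R T) with hP1
    set P0 : ℝ := ∫ t in T..(T + v), (R t - R T) with hP0
    -- the bound for P1
    have hP1b : P1 ≤ 6 * C * Real.exp (f * T) * v1 := by
      have h1 : ∀ t ∈ Set.uIoc T (T + v1), ‖R t - R T‖ ≤ 6 * C * Real.exp (f * T) := by
        intro t ht
        rw [Set.uIoc_of_le (by linarith)] at ht
        have ht0 : 0 ≤ t := by linarith [ht.1]
        have h2 := hR t ht0
        have h3 := hR T (by linarith)
        have h4 : Real.exp (f * t) ≤ 3 * Real.exp (f * T) := by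
          have h5 : Real.exp (f * t) ≤ Real.exp (1 + f * T) := by
            apply Real.exp_le_exp.2
            nlinarith [ht.2]
          rw [Real.exp_add] at h5
          have h6 := mul_le_mul_of_nonneg_right he1 (Real.exp_pos (f * T)).le
          linarith
        have h4' : 0 < Real.exp (f * T) := Real.exp_pos _
        rw [Real.norm_eq_abs]
        have h5 := abs_sub (R t) (R T)
        nlinarith
      have h2 := intervalIntegral.norm_integral_le_of_norm_le_const h1
      have h3 : |T + v1 - T| = v1 := by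
        rw [abs_of_nonneg (by linarith)]
        ring
      rw [h3] at h2
      have h4 := le_abs_self P1
      rw [Real.norm_eq_abs] at h2
      linarith
    -- expansions
    have hexp1 : Real.exp (T + v1) = Real.exp T * Real.exp v1 := by rw [← Real.exp_add]
    have hexp0 : Real.exp (T + v) = Real.exp T * Real.exp v := by rw [← Real.exp_add]
    have ht1 := exp_taylor (z := v1) (by rw [abs_of_pos hv1p]; linarith)
    have ht0 := exp_taylor (z := v) (by rw [abs_of_pos hv0]; linarith)
    rw [abs_of_pos hv1p] at ht1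
    rw [abs_of_pos hv0] at ht0
    rw [abs_le] at ht1 ht0
    have hXp : 0 < Real.exp T := Real.exp_pos T
    have hX1 : Real.exp T * v1 = Real.exp ((1 + f) / 2 * T) := by
      rw [hv1, ← Real.exp_add]
      congr 1
      ring
    have hX2 : Real.exp (f * T) = Real.exp ((1 + f) / 2 * T) * v1 := by
      rw [hv1, ← Real.exp_add]
      congr 1
      ring
    have hTX : T ≤ 2 * Real.exp (f * T) := by
      have h1 := Real.add_one_le_exp (T / 2)
      have h2 : Real.exp (T / 2) ≤ Real.exp (f * T) := by
        apply Real.exp_le_exp.2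
        nlinarith
      linarith
    set X : ℝ := Real.exp ((1 + f) / 2 * T) with hX
    have hX0 : 0 < X := Real.exp_pos _
    have hL : AR M T v1 ≤ Real.exp T * (1 / 2 + 2 / 9 * v1) + 6 * C * X + 2 * X := by
      have h1 : AR M T v1 * v1 ^ 2 ≤ (Real.exp T * (1 / 2 + 2 / 9 * v1) + 6 * C * X + 2 * X) * v1 ^ 2 := by
        refine hA1.trans ?_
        rw [hexp1]
        have h2 : P1 ≤ 6 * C * X * v1 ^ 2 := by
          rw [hX2] at hP1b
          nlinarith
        have h3 : Real.exp T * Real.exp v1 ≤ Real.exp T * (1 + v1 + v1 ^ 2 / 2 + v1 ^ 3 * (2 / 9)) := by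
          apply mul_le_mul_of_nonneg_left _ hXp.le
          nlinarith [ht1.2]
        have h4 : T * v1 ≤ 2 * X * v1 ^ 2 := by
          rw [hX2] at hTX
          nlinarith
        nlinarith
      exact le_of_mul_le_mul_right h1 (by positivity)
    have hU : Real.exp T * (1 / 2 - 2 / 9 * v) * v ^ 2 + P0 ≤ AR M T v * v ^ 2 := by
      refine le_trans ?_ hA0
      rw [hexp0]
      have h3 : Real.exp T * (1 + v + v ^ 2 / 2 - v ^ 3 * (2 / 9)) ≤ Real.exp T * Real.exp v := by
        apply mul_le_mul_of_nonneg_left _ hXp.le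
        nlinarith [ht0.1]
      nlinarith
    have hsc2 : AR M T v * v ^ 2 ≤ AR M T v1 * v ^ 2 + E := by
      have h1 := mul_le_mul_of_nonneg_right hsc (sq_nonneg v)
      have h2 : (AR M T v1 + E / v ^ 2) * v ^ 2 = AR M T v1 * v ^ 2 + E := by
        field_simp
      linarith
    have hL2 := mul_le_mul_of_nonneg_right hL (sq_nonneg v)
    have hfin : P0 ≤ E + v ^ 2 * (Real.exp T * (2 / 9 * v + 2 / 9 * v1) + 6 * C * X + 2 * X) := by
      nlinarith
    have h4 : Real.exp T * (2 / 9 * v + 2 / 9 * v1) ≤ X := by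
      rw [← hX1]
      nlinarith
    have h5 : v ^ 2 * (Real.exp T * (2 / 9 * v + 2 / 9 * v1) + 6 * C * X + 2 * X) ≤ v ^ 2 * (X + 6 * C * X + 2 * X) :=
      mul_le_mul_of_nonneg_left (by linarith) (sq_nonneg v)
    have h6 : E ≤ K * Real.exp (b * T) := by
      rw [hE, hK]
      apply mul_le_mul_of_nonneg_right _ (Real.exp_pos _).le
      linarith
    have h7 : v ^ 2 * (X + 6 * C * X + 2 * X) ≤ K * v ^ 2 * X := by
      have h8 : (3 + 6 * C) ≤ K := by
        rw [hK]
        have : 0 < K1 * c1 := by positivity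
        linarith
      have h9 : 0 ≤ v ^ 2 * X := by positivity
      nlinarith
    linarith

end Pool.Agent.GS
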