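import Pool.Agent.helper16.GS.SpecS

/-!
# MP_5a4a8e_nt, project gs: Step 4, pointwise bounds
-/

set_option autoImplicit false

namespace Pool.Agent.GS

open Filter MeasureTheory

lemma G_exp {u : ℝ} (h0 : 0 ≤ u) (h1 : u ≤ 1) : Real.exp u - 1 ≤ 2 * u := by
  have h := Real.abs_exp_sub_one_le (x := u) (by rw [abs_of_nonneg h0]; exact h1)
  rw [abs_of_nonneg h0] at h
  exact (le_abs_self _).trans h

/-- near minimum -/
lemma G_min (V : ℝ → ℝ) (hV : Monotone V) (a b τ : ℝ) (hab : a ≤ b) (hτ : 0 < τ) :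
    ∃ T ∈ Set.Icc a b, ∀ t ∈ Set.Icc a b, V T - Real.exp T - τ ≤ V t - Real.exp t := by
  set S : Set ℝ := (fun t => V t - Real.exp t) '' Set.Icc a b with hS
  have hne : S.Nonempty := ⟨_, a, ⟨le_rfl, hab⟩, rfl⟩
  have hbd : BddBelow S := by
    refine ⟨V a - Real.exp b, ?_⟩
    rintro y ⟨t, ht, rfl⟩
    dsimp only
    have h1 := hV ht.1
    have h2 := Real.exp_le_exp.2 ht.2
    linarith
  obtain ⟨y, ⟨T, hT, rfl⟩, hy⟩ := exists_lt_of_csInf_lt hne (lt_add_of_pos_right (sInf S) hτ)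
  refine ⟨T, hT, ?_⟩
  intro t ht
  have h1 : sInf S ≤ V t - Real.exp t := csInf_le hbd ⟨t, ht, rfl⟩
  dsimp only at hy
  linarith

lemma G_int (V : ℝ → ℝ) (hV : Monotone V) (c a b : ℝ) :
    IntervalIntegrable (fun t => (V t - Real.exp t) - c) volume a b :=
  ((hV.intervalIntegrable).sub (Real.continuous_exp.intervalIntegrable _ _)).sub (by simp)

lemma G_lower (V : ℝ → ℝ) (hV : Monotone V) (c a b m : ℝ) (hab : a ≤ b)
    (h : ∀ t ∈ Set.Icc a b, m ≤ (V t - Real.exp t) - c) :
    m * (b - a) ≤ ∫ t in a..b, ((V t - Real.exp t) - c) := by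
  have h1 := intervalIntegral.integral_mono_on hab (by simp : IntervalIntegrable (fun _ => m) volume a b)
    (G_int V hV c a b) h
  rw [intervalIntegral.integral_const, smul_eq_mul] at h1
  linarith

/-- the case of a decrease -/
lemma G_minus (V : ℝ → ℝ) (hV : Monotone V) (x h D Q : ℝ) (hx : 1 ≤ x) (h0 : 0 ≤ h) (hhx : h ≤ x) (hD : 0 < D)
    (hDR : V (Real.log (x + h)) - V (Real.log x) - h = -D)
    (hQ : ∀ T v : ℝ, Real.log x ≤ T → T ≤ Real.log (x + h) → 0 < v → v ≤ h / x →
      ∫ t in (T - v)..T, ((V t - Real.exp t) - (V T - Real.exp T)) ≤ Q) :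
    D ^ 2 ≤ 16 * x * Q := by
  have hxp : 0 < x := by linarith
  set t0 : ℝ := Real.log x with ht0
  set t1 : ℝ := Real.log (x + h) with ht1
  have he0 : Real.exp t0 = x := Real.exp_log hxp
  have he1 : Real.exp t1 = x + h := Real.exp_log (by linarith)
  have h01 : t0 ≤ t1 := Real.log_le_log hxp (by linarith)
  have hlen : t1 - t0 ≤ h / x := by
    rw [ht1, ht0, ← Real.log_div (by linarith) hxp.ne']
    refine (Real.log_le_sub_one_of_pos (by positivity)).trans (le_of_eq ?_)
    field_simp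
    ring
  have hhx1 : h / x ≤ 1 := (div_le_one hxp).2 hhx
  have hDh : D ≤ h := by
    have := hV h01
    linarith
  have hDx : D / x ≤ 1 := (div_le_one hxp).2 (by linarith)
  set τ : ℝ := min (D / 4) (D ^ 2 / (16 * x)) with hτ
  have hτ0 : 0 < τ := lt_min (by linarith) (by positivity)
  have hτ1 : τ ≤ D / 4 := min_le_left _ _
  have hτ2 : τ ≤ D ^ 2 / (16 * x) := min_le_right _ _
  obtain ⟨T, hT, hmin⟩ := G_min V hV t0 t1 τ h01 hτ0
  set u : ℝ := D / (4 * x) with hu
  have hu0 : 0 < u := by positivity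
  have hux : u * x = D / 4 := by rw [hu]; field_simp
  have hu1 : u ≤ 1 := by
    have : u = D / x / 4 := by rw [hu]; field_simp
    rw [this]; linarith
  have hR1 : V T - Real.exp T - τ ≤ V t1 - Real.exp t1 := hmin t1 ⟨h01, le_rfl⟩
  rw [he1] at hR1
  -- values on [t0, t0 + u]
  have hval : ∀ t ∈ Set.Icc t0 (t0 + u), V t0 - x - D / 2 ≤ V t - Real.exp t := by
    intro t ht
    have h1 := hV ht.1
    have h2 : Real.exp t ≤ x * Real.exp u := by
      rw [← he0, ← Real.exp_add]
      exact Real.exp_le_exp.2 ht.2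
    have h3 : x * Real.exp u ≤ x + D / 2 := by
      have := mul_le_mul_of_nonneg_left (G_exp hu0.le hu1) hxp.le
      nlinarith
    linarith
  have hTu : t0 + u < T := by
    by_contra hcon
    push Not at hcon
    have := hval T ⟨hT.1, hcon⟩
    linarith
  have hvlen : T - t0 ≤ h / x := by linarith [hT.2]
  have hv0 : 0 < T - t0 := by linarith
  have hq := hQ T (T - t0) hT.1 hT.2 hv0 hvlen
  rw [sub_sub_cancel] at hq
  rw [← intervalIntegral.integral_add_adjacent_intervals (G_int V hV _ t0 (t0 + u))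
    (G_int V hV _ (t0 + u) T)] at hq
  have hI1 := G_lower V hV (V T - Real.exp T) t0 (t0 + u) (D / 2 - τ) (by linarith) (by
    intro t ht
    have := hval t ht
    linarith)
  have hI2 := G_lower V hV (V T - Real.exp T) (t0 + u) T (-τ) hTu.le (by
    intro t ht
    have := hmin t ⟨by linarith [ht.1], ht.2.trans hT.2⟩
    linarith)
  have hkey : u * (D / 2) - τ ≤ Q := by
    have h3 : T - t0 ≤ 1 := by linarith
    have h4 : τ * (T - t0) ≤ τ * 1 := mul_le_mul_of_nonneg_left h3 hτ0.le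
    nlinarith
  have h5 : u * (D / 2) = D ^ 2 / (8 * x) := by rw [hu]; field_simp; ring
  have h6 : D ^ 2 / (8 * x) = 2 * (D ^ 2 / (16 * x)) := by field_simp; ring
  have h7 : D ^ 2 / (16 * x) ≤ Q := by linarith
  rw [div_le_iff₀ (by positivity)] at h7
  linarith

/-- the case of an increase -/
lemma G_plus (V : ℝ → ℝ) (hV : Monotone V) (x h D Q : ℝ) (hx : 1 ≤ x) (h0 : 0 ≤ h) (hhx : h ≤ x) (hD : 0 < D)
    (hDx' : D ≤ x) (hDR : V (Real.log (x + h)) - V (Real.log x) - h = D)
    (hQ : ∀ T v : ℝ, Real.log x ≤ T → T ≤ Real.log (x + h) → 0 < v → v ≤ h / x + D / (8 * x) →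
      ∫ t in T..(T + v), ((V t - Real.exp t) - (V T - Real.exp T)) ≤ Q) :
    D ^ 2 ≤ 32 * x * Q := by
  have hxp : 0 < x := by linarith
  set t0 : ℝ := Real.log x with ht0
  set t1 : ℝ := Real.log (x + h) with ht1
  have he0 : Real.exp t0 = x := Real.exp_log hxp
  have he1 : Real.exp t1 = x + h := Real.exp_log (by linarith)
  have h01 : t0 ≤ t1 := Real.log_le_log hxp (by linarith)
  have hlen : t1 - t0 ≤ h / x := by
    rw [ht1, ht0, ← Real.log_div (by linarith) hxp.ne']
    refine (Real.log_le_sub_one_of_pos (by positivity)).trans (le_of_eq ?_)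
    field_simp
    ring
  have hhx1 : h / x ≤ 1 := (div_le_one hxp).2 hhx
  have hDx : D / x ≤ 1 := (div_le_one hxp).2 hDx'
  set τ : ℝ := min (D / 8) (D ^ 2 / (64 * x)) with hτ
  have hτ0 : 0 < τ := lt_min (by linarith) (by positivity)
  have hτ2 : τ ≤ D ^ 2 / (64 * x) := min_le_right _ _
  obtain ⟨T, hT, hmin⟩ := G_min V hV t0 t1 τ h01 hτ0
  set u : ℝ := D / (8 * x) with hu
  have hu0 : 0 < u := by positivity
  have hux : u * x = D / 8 := by rw [hu]; field_simp
  have hu1 : u ≤ 1 := by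
    have : u = D / x / 8 := by rw [hu]; field_simp
    rw [this]; linarith
  have hR0 : V T - Real.exp T - τ ≤ V t0 - Real.exp t0 := hmin t0 ⟨le_rfl, h01⟩
  rw [he0] at hR0
  -- values on [t1, t1 + u]
  have hval : ∀ t ∈ Set.Icc t1 (t1 + u), V t1 - (x + h) - D / 2 ≤ V t - Real.exp t := by
    intro t ht
    have h1 := hV ht.1
    have h2 : Real.exp t ≤ (x + h) * Real.exp u := by
      rw [← he1, ← Real.exp_add]
      exact Real.exp_le_exp.2 ht.2
    have h3 : (x + h) * Real.exp u ≤ (x + h) + D / 2 := by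
      have h4 := mul_le_mul_of_nonneg_left (G_exp hu0.le hu1) (by linarith : 0 ≤ x + h)
      nlinarith
    linarith
  have hv0 : 0 < t1 + u - T := by linarith [hT.2]
  have hvlen : t1 + u - T ≤ h / x + D / (8 * x) := by linarith [hT.1]
  have hq := hQ T (t1 + u - T) hT.1 hT.2 hv0 hvlen
  rw [add_sub_cancel] at hq
  rw [← intervalIntegral.integral_add_adjacent_intervals (G_int V hV _ T t1)
    (G_int V hV _ t1 (t1 + u))] at hq
  have hI1 := G_lower V hV (V T - Real.exp T) t1 (t1 + u) (D / 2 - τ) (by linarith) (by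
    intro t ht
    have := hval t ht
    linarith)
  have hI2 := G_lower V hV (V T - Real.exp T) T t1 (-τ) hT.2 (by
    intro t ht
    have := hmin t ⟨hT.1.trans ht.1, ht.2⟩
    linarith)
  have hkey : u * (D / 2) - 2 * τ ≤ Q := by
    have h3 : t1 + u - T ≤ 2 := by linarith [hT.1]
    have h4 : τ * (t1 + u - T) ≤ τ * 2 := mul_le_mul_of_nonneg_left h3 hτ0.le
    nlinarith
  have h5 : u * (D / 2) = D ^ 2 / (16 * x) := by rw [hu]; field_simp; ring
  have h6 : D ^ 2 / (16 * x) = 4 * (D ^ 2 / (64 * x)) := by field_simp; ring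
  have h7 : D ^ 2 / (32 * x) ≤ Q := by
    have : D ^ 2 / (32 * x) = 2 * (D ^ 2 / (64 * x)) := by field_simp; ring
    linarith
  rw [div_le_iff₀ (by positivity)] at h7
  linarith

end Pool.Agent.GS
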